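import Pool.Agent.H92.MM.Lw
import Pool.Agent.H92.MM.Mx
import Pool.Agent.H96.UL.Pp

/-!
# MP_8923e7_nt, Theorem G, part A (U6): pointwise bounds, uniformly in the shifts and in the modulus
-/

set_option autoImplicit false

namespace Pool.Agent.H92.UM

open Finset Filter Pool.Agent.H21.MT Pool.Agent.H92.MM

/-- the counts are bounded -/
theorem mc_le {x a : ℝ} (hx : 1 < x) (ha : 0 < a) {n : ℕ} (hn : 0 < n) (hnx : (n : ℝ) ≤ x ^ (2 : ℝ))
    (i : ℕ) : (mc x a i n : ℝ) ≤ 2 / a := by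
  have hx0 : 0 < x := by linarith
  obtain ⟨S, hS⟩ : ∃ S : Finset ℕ, S = (rg x (a * 2 ^ i) (a * 2 ^ (i + 1))).filter (· ∣ n) :=
    ⟨_, rfl⟩
  have hSp : ∀ p ∈ S, p.Prime ∧ x ^ a ≤ (p : ℝ) ∧ p ∣ n := by
    intro p hp
    rw [hS, mem_filter, rg, mem_filter] at hp
    refine ⟨hp.1.2.1, ?_, hp.2⟩
    refine le_trans (Real.rpow_le_rpow_of_exponent_le hx.le ?_) hp.1.2.2
    exact le_mul_of_one_le_right ha.le (one_le_pow₀ (by norm_num))
  have h1 : ∏ p ∈ S, p ∣ n :=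
    Finset.prod_primes_dvd n (fun p hp => (hSp p hp).1.prime) (fun p hp => (hSp p hp).2.2)
  have h2 : ((∏ p ∈ S, p : ℕ) : ℝ) ≤ n := by exact_mod_cast Nat.le_of_dvd hn h1
  have h3 : (x ^ a) ^ S.card ≤ ((∏ p ∈ S, p : ℕ) : ℝ) := by
    push_cast
    rw [← Finset.prod_const]
    exact Finset.prod_le_prod (fun _ _ => by positivity) (fun p hp => (hSp p hp).2.1)
  have h4 : x ^ (a * S.card) ≤ x ^ (2 : ℝ) := by
    rw [Real.rpow_mul hx0.le, Real.rpow_natCast]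
    exact h3.trans (h2.trans hnx)
  have h5 := (Real.rpow_le_rpow_left_iff hx).1 h4
  have h6 : (mc x a i n : ℝ) = S.card := by rw [hS, mc]
  rw [h6, le_div_iff₀ ha]
  linarith

/-- the sieve weight is bounded -/
theorem sg_le {ι : Type} [Fintype ι] [DecidableEq ι] {L b l : ℕ} {B : ℝ} (hb : Even b)
    (ht : tl b ≤ 1 / 100) (m : ι → Fin L → ℕ → ℕ) (N M : ℕ) (hM : ∀ j i, m j i N ≤ M) :
    |sg b l B m N| ≤ ((l : ℝ) + 1) ^ Fintype.card ι * ((2 : ℝ) ^ M) ^ (L * Fintype.card ι) := by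
  unfold sg
  refine (Finset.abs_sum_le_sum_abs _ _).trans ?_
  have h1 : ∀ J ∈ JJ ι l B, |∏ j, ∏ i : Fin L, th b (J j) i (m j i N)| ≤
      ((2 : ℝ) ^ M) ^ (L * Fintype.card ι) := by
    intro J _
    rw [Finset.abs_prod]
    simp only [Finset.abs_prod]
    have h2 : ∀ j : ι, ∏ i : Fin L, |th b (J j) i (m j i N)| ≤ ((2 : ℝ) ^ M) ^ L := by
      intro j
      calc ∏ i : Fin L, |th b (J j) i (m j i N)| ≤ ∏ _i : Fin L, (2 : ℝ) ^ M :=
            Finset.prod_le_prod (fun _ _ => abs_nonneg _) fun i _ =>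
              (th_abs hb ht _ _ _).trans (pow_le_pow_right₀ (by norm_num) (hM j i))
        _ = _ := by rw [Finset.prod_const, Finset.card_univ, Fintype.card_fin]
    calc ∏ j, ∏ i : Fin L, |th b (J j) i (m j i N)| ≤ ∏ _j : ι, ((2 : ℝ) ^ M) ^ L :=
          Finset.prod_le_prod (fun _ _ => Finset.prod_nonneg fun _ _ => abs_nonneg _)
            fun j _ => h2 j
      _ = _ := by rw [Finset.prod_const, Finset.card_univ, ← pow_mul]
  refine (Finset.sum_le_card_nsmul _ _ _ h1).trans ?_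
  rw [nsmul_eq_mul]
  refine mul_le_mul_of_nonneg_right ?_ (by positivity)
  exact_mod_cast card_JJ_le ι l B

theorem mass_posU {x : ℝ} (hx : 4 ≤ x) : 0 < mass x := by
  unfold mass
  refine sum_pos (fun N _ => gw_pos x N) ?_
  unfold Tx
  rw [nonempty_Ioc]
  have h0 : 0 ≤ x := by linarith
  have h1 : Real.sqrt x ≤ x / 2 := by
    rw [Real.sqrt_le_left (by linarith)]
    nlinarith
  have h2 : (⌊Real.sqrt x⌋₊ : ℝ) ≤ Real.sqrt x := Nat.floor_le (Real.sqrt_nonneg x)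
  have h3 : x < (⌊x⌋₊ : ℝ) + 1 := Nat.lt_floor_add_one x
  have h4 : (⌊Real.sqrt x⌋₊ : ℝ) < (⌊x⌋₊ : ℝ) := by linarith
  have h5 : ⌊Real.sqrt x⌋₊ < ⌊x⌋₊ := by exact_mod_cast h4
  refine lt_of_lt_of_le h5 (Nat.floor_mono ?_)
  calc x = x ^ (1 : ℝ) := (Real.rpow_one x).symm
    _ ≤ x ^ (1 + 1 / 2000 : ℝ) := Real.rpow_le_rpow_of_exponent_le (by linarith) (by norm_num)

theorem nm_posU {x a : ℝ} (hx : 4 ≤ x) {w W K : ℕ} (hW0 : 0 < W) (hW : primorial w ∣ W)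
    (hw : K ≤ w) : 0 < nm x a W K := by
  have hW1 : 0 < (W : ℝ) := by exact_mod_cast hW0
  unfold nm
  refine mul_pos (div_pos (mass_posU hx) hW1) (prod_pos fun p hp => ?_)
  rw [mem_filter] at hp
  have h1 := Pool.Agent.H96.UL.prim_gt hW hp.2.1 hp.2.2
  have h2 : (K : ℝ) < p := by exact_mod_cast (hw.trans_lt h1)
  have h3 : (0 : ℝ) < p := lt_of_le_of_lt (Nat.cast_nonneg K) h2
  have h4 : (K : ℝ) / p < 1 := (div_lt_one h3).2 h2
  linarith

theorem tx_bdU (A : ℝ) : ∀ᶠ x : ℝ in atTop, ∀ h : ℕ, (h : ℝ) ≤ Real.log x ^ A → ∀ N ∈ Tx x,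
    0 < N ∧ Real.sqrt x < ((N + h : ℕ) : ℝ) ∧ ((N + h : ℕ) : ℝ) ≤ x ^ (1 + 1 / 1000 : ℝ) := by
  have h1 : Tendsto (fun x : ℝ => x ^ (1 / 2000 : ℝ)) atTop atTop :=
    tendsto_rpow_atTop (by norm_num)
  filter_upwards [h1.eventually_ge_atTop 2, eventually_ge_atTop (1 : ℝ),
    Pool.Agent.H96.UL.log_lt A 1 one_pos] with x hx1 hx2 hx3 h hh N hN
  rw [Real.rpow_one] at hx3
  rw [Tx, mem_Ioc] at hN
  have hx0 : 0 < x := by linarith
  have h2 : Real.sqrt x < (N : ℝ) := Nat.lt_of_floor_lt hN.1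
  have h3 : (N : ℝ) ≤ x ^ (1 + 1 / 2000 : ℝ) := by
    have h4 : (⌊x ^ (1 + 1 / 2000 : ℝ)⌋₊ : ℝ) ≤ x ^ (1 + 1 / 2000 : ℝ) :=
      Nat.floor_le (by positivity)
    have h5 : (N : ℝ) ≤ (⌊x ^ (1 + 1 / 2000 : ℝ)⌋₊ : ℝ) := by exact_mod_cast hN.2
    exact h5.trans h4
  refine ⟨?_, ?_, ?_⟩
  · have h4 : (0 : ℝ) < N := lt_of_le_of_lt (Real.sqrt_nonneg x) h2
    exact_mod_cast h4
  · push_cast
    have : (0 : ℝ) ≤ h := Nat.cast_nonneg h
    linarith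
  · push_cast
    have h4 : x ≤ x ^ (1 + 1 / 2000 : ℝ) := by
      calc x = x ^ (1 : ℝ) := (Real.rpow_one x).symm
        _ ≤ x ^ (1 + 1 / 2000 : ℝ) := Real.rpow_le_rpow_of_exponent_le hx2 (by norm_num)
    have h5 : x ^ (1 + 1 / 1000 : ℝ) = x ^ (1 / 2000 : ℝ) * x ^ (1 + 1 / 2000 : ℝ) := by
      rw [← Real.rpow_add hx0]
      norm_num
    have h6 : 0 ≤ x ^ (1 + 1 / 2000 : ℝ) := by positivity
    rw [h5]
    nlinarith

/-- the points of the blocks as a family -/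
theorem enum {k s : ℕ} (V : Fin k → Finset ℕ) (hdis : ∀ j j', j ≠ j' → Disjoint (V j) (V j'))
    (hcard : ∀ j, (V j).card = s) : ∃ h : Fin k × Fin s → ℕ, Function.Injective h ∧
      (∀ q, h q ∈ V q.1) ∧ ∀ j, ∀ y ∈ V j, ∃ q, h q = y := by
  refine ⟨fun q => (V q.1).orderEmbOfFin (hcard q.1) q.2, ?_, ?_, ?_⟩
  · rintro ⟨j, i⟩ ⟨j', i'⟩ hq
    have hq' : (V j).orderEmbOfFin (hcard j) i = (V j').orderEmbOfFin (hcard j') i' := hq
    have hj : j = j' := by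
      by_contra hne
      have h1 := (V j).orderEmbOfFin_mem (hcard j) i
      have h2 := (V j').orderEmbOfFin_mem (hcard j') i'
      rw [← hq'] at h2
      exact (Finset.disjoint_left.1 (hdis j j' hne)) h1 h2
    subst hj
    have hi : i = i' := ((V j).orderEmbOfFin (hcard j)).injective hq'
    rw [hi]
  · intro q
    exact (V q.1).orderEmbOfFin_mem (hcard q.1) q.2
  · intro j y hy
    have h1 : y ∈ Set.range ((V j).orderEmbOfFin (hcard j)) := by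
      rw [Finset.range_orderEmbOfFin]
      exact hy
    obtain ⟨i, hi⟩ := h1
    exact ⟨(j, i), hi⟩

end Pool.Agent.H92.UM
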