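import Pool.Agent.H92.MM.Ls
import Pool.Agent.H92.UM.Bd

/-!
# MP_8923e7_nt, Theorem G, part A (U6): one block of shifts, at a fixed `x`
-/

set_option autoImplicit false

namespace Pool.Agent.H92.UM

open Finset Filter Pool.Agent.H21.MT Pool.Agent.H92.MM

open Classical in
/-- one block contains a prime with probability `≥ (1 - e) cc - √(e + C1/P0)` -/
theorem block_step {ι : Type} [Fintype ι] [DecidableEq ι] [Nonempty ι] (h : ι → ℕ) (idx : ℕ → ι)
    (T : Finset ℕ) (ω : ℕ → ℝ) {L l b : ℕ} {bi : Fin L → ℕ} {a B η ϖ ε Δ κ : ℝ}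
    (m : ι → Fin L → ℕ → ℕ) (hS : St (Fintype.card ι) L l b bi a B η ϖ ε Δ κ)
    (hω : ∀ N, 0 ≤ ω N) (h1 : AppT T ω m a η ϖ (fun _ => 1) 1)
    (G : ℕ → ℝ) {EG c C : ℝ} (hG : Lg T ω m a η ϖ ε Δ κ c C (fun x N => G (N + h x)) EG)
    (hG0 : ∀ n, 0 ≤ G n)
    (hprime : ∀ x : ι, ∀ N ∈ T, (N + h x).Prime → (∀ i, m x i N = 0) ∧ 1 ≤ G (N + h x)) {pr : ℝ}
    (hlaw : ∀ x : ι, ∀ A : ι → Fin L → ℕ, (∀ i, A x i = 0) → sl a L A ≤ η →
      |AvT T ω (fun N => mon m A N * (if (N + h x).Prime then 1 else 0)) - sv L A * pr| ≤ ϖ)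
    {cc : ℝ} (hcc : 1 / 10 ≤ cc) (hcc1 : cc ≤ 1)
    (hpr : cc * EG ≤ (1 + ε) ^ 2 * (2 ^ L * pr)) (e P0 : ℝ) (he : 40 * ε ≤ e) (hP : 0 < P0)
    (V : Finset ℕ) (hV : ∀ y ∈ V, h (idx y) = y) (hP0 : P0 ≤ V.card * (c / 4 * AA b l L)) :
    (1 - e) * cc - Real.sqrt (e + 4 * C ^ 2 / c / P0) ≤
      ∑ N ∈ T.filter (fun N => ∃ y ∈ V, (N + y).Prime),
        ω N * sg b l B m N ^ 2 / AvT T ω (fun N => sg b l B m N ^ 2) := by
  have hz : 0 < AvT T ω (fun N => sg b l B m N ^ 2) := co_z hS h1 hG.hκ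
  have hAA : 0 ≤ AA b l L := AA_nonneg hS.hb hS.ht l L
  have hε := hS.hε
  have hc0 := hG.c0
  obtain ⟨μ, hμd⟩ : ∃ μ : ℕ → ℝ, μ = fun N => ω N * sg b l B m N ^ 2 /
    AvT T ω (fun N => sg b l B m N ^ 2) := ⟨_, rfl⟩
  obtain ⟨g, hg⟩ : ∃ g : ℕ → ℕ → ℝ, g = fun y N => G (N + y) * r0 m (idx y) N := ⟨_, rfl⟩
  have hgy : ∀ y ∈ V, g y = fun N => (fun x N => G (N + h x)) (idx y) N * r0 m (idx y) N := by
    intro y hy
    rw [hg]
    funext N
    show G (N + y) * r0 m (idx y) N = G (N + h (idx y)) * r0 m (idx y) N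
    rw [hV y hy]
  have hμ0 : ∀ N, 0 ≤ μ N := by
    intro N
    rw [hμd]
    have := hω N
    positivity
  have hμ1 : ∑ N ∈ T, μ N = 1 := by
    rw [hμd, ← sum_div]
    exact div_self hz.ne'
  have hEx : ∀ f : ℕ → ℝ, Pool.Agent.H21.CP.Ex T μ f = emu b l B T ω m f := by
    intro f
    rw [hμd]
    exact ex_emu b l B T ω m f
  have hm : ∀ y ∈ V, c / 4 * AA b l L ≤ Pool.Agent.H21.CP.Ex T μ (g y) := by
    intro y hy
    rw [hEx, hgy y hy]
    exact co_mean hS hω h1 hG (idx y)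
  have hm0 : 0 ≤ c / 4 * AA b l L := by positivity
  have hMom : Pool.Agent.H21.CP.Mom T μ V g e (4 * C ^ 2 / c) P0 := by
    refine ⟨fun y hy => hm0.trans (hm y hy), fun y hy => ?_, fun y hy z hz' hyz => ?_, ?_⟩
    · rw [hEx, hEx, hgy y hy]
      exact co_sq hS hω h1 hG (idx y)
    · have hne : idx y ≠ idx z := by
        intro h2
        apply hyz
        rw [← hV y hy, ← hV z hz', h2]
      have h3 := co_pair hS hω h1 hG hne
      have h4 := hm y hy
      have h5 := hm z hz'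
      rw [hEx] at h4 h5
      rw [hEx, hEx, hEx]
      rw [hgy y hy] at h4 ⊢
      rw [hgy z hz'] at h5 ⊢
      refine h3.trans ?_
      apply mul_le_mul_of_nonneg_right (by linarith)
      exact mul_nonneg (hm0.trans h4) (hm0.trans h5)
    · refine hP0.trans ?_
      rw [← nsmul_eq_mul, ← sum_const]
      exact sum_le_sum fun y hy => hm y hy
  have hgp : ∀ y ∈ V, ∀ N ∈ T, 0 ≤ g y N ∧ ((N + y).Prime → 1 ≤ g y N) := by
    intro y hy N hN
    rw [hg]
    refine ⟨mul_nonneg (hG0 _) (r0_nonneg _ _), fun hp => ?_⟩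
    have h2 := hprime (idx y) N hN (by rw [hV y hy]; exact hp)
    rw [hV y hy] at h2
    show 1 ≤ G (N + y) * r0 m (idx y) N
    rw [r0, if_pos h2.1, mul_one]
    exact h2.2
  have hpp : ∀ y ∈ V, (1 - e) * cc * Pool.Agent.H21.CP.Ex T μ (g y) ≤
      ∑ N ∈ T.filter (fun N => (N + y).Prime), μ N := by
    intro y hy
    have h10 := co_primeC hS hω h1 hG (idx y) (fun N _ => hG0 _)
      (fun N => (N + y).Prime) (pr := pr)
      (fun N hN hp => (hprime (idx y) N hN (by rw [hV y hy]; exact hp)).1)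
      (fun A hA hA2 => by
        have h11 := hlaw (idx y) A hA hA2
        rw [hV y hy] at h11
        refine le_trans (le_of_eq ?_) h11
        congr 3
        funext N
        congr) hcc hcc1 hpr
    have h12 : ∑ N ∈ T.filter (fun N => (N + y).Prime), μ N =
        emu b l B T ω m (fun N => if (N + y).Prime then 1 else 0) := by
      rw [← hEx, Pool.Agent.H21.CP.Ex, sum_filter]
      refine sum_congr rfl fun N _ => ?_
      split_ifs <;> ring
    rw [h12, hEx, hgy y hy]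
    have h13 : (1 - e) * cc ≤ (1 - 10 * ε) * cc :=
      mul_le_mul_of_nonneg_right (by linarith) (by linarith)
    have h14 : 0 ≤ emu b l B T ω m
        (fun N => (fun x N => G (N + h x)) (idx y) N * r0 m (idx y) N) := by
      rw [← hgy y hy, ← hEx]
      exact hm0.trans (hm y hy)
    refine (mul_le_mul_of_nonneg_right h13 h14).trans (h10.trans (le_of_eq ?_))
    congr 1
    funext N
    congr
  have he0 : 0 ≤ e := by linarith
  have hC1 : 0 ≤ 4 * C ^ 2 / c := by positivity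
  have hfin := Pool.Agent.H21.CP.block_prime hμ0 hμ1 he0 hC1 hP hMom
    (fun y N => (N + y).Prime) hgp (fun y hy => by
      refine (hpp y hy).trans (le_of_eq ?_)
      congr)
  refine hfin.trans (le_of_eq ?_)
  rw [hμd]
  congr

end Pool.Agent.H92.UM
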