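import Pool.Agent.H92.MM.Lo
import Pool.Agent.H92.UM.Ls

/-!
# MP_8923e7_nt, Theorem G, part A (U6, U7): the uniform measure theorem from the uniform laws

As `loc_of_laws` (H92/MM/Lo), with only the upper weight `G`, for `ι = Fin k × Fin s`.
-/

set_option autoImplicit false

namespace Pool.Agent.H92.UM

open Finset Filter Pool.Agent.H21.MT Pool.Agent.H92.MM Pool.Agent.H96.UL

/-- a family of large functions with the uniform pair law -/
structure WtU (η Θ a0 c C : ℝ) (F : ℝ → ℕ → ℝ) (EF : ℝ → ℝ) : Prop where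
  law : PairLawU η Θ a0 F EF
  bd : ∀ᶠ x : ℝ in atTop, ∀ n : ℕ, 0 < n → (n : ℝ) ≤ x ^ (1 + 1 / 1000 : ℝ) → |F x n| ≤ C
  lo : ∀ᶠ x : ℝ in atTop, c ≤ EF x
  hi : ∀ᶠ x : ℝ in atTop, EF x ≤ C

theorem med_of_laws (cc : ℝ) (hcc : 1 / 10 ≤ cc) (hcc1 : cc ≤ 1) (k : ℕ)
    (hk : 1 ≤ k) (c2 : ℝ) (hc2 : 0 < c2) (hc21 : c2 ≤ 1)
    (hM : Mer)
    (hall : ∀ ε : ℝ, 0 < ε → ∃ η : ℝ, 0 < η ∧ η ≤ 1 ∧ OneLawU η 10 ∧ PrimeLawU η 10 ∧
      ∀ a0 : ℝ, 0 < a0 → a0 ≤ 1 / 20 →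
        ∃ (G : ℝ → ℕ → ℝ) (EG : ℝ → ℝ),
          WtU η 10 a0 (c2 * a0) (2 * Real.exp (3 / a0)) G EG ∧ Maj cc ε a0 G EG) :
    MedU cc k := by
  classical
  intro η' hη'
  -- parameters
  obtain ⟨e, hed⟩ : ∃ e : ℝ, e = min (η' / 4) (min (1 / 2) (η' ^ 2 / 8)) := ⟨_, rfl⟩
  have he0 : 0 < e := by
    rw [hed]
    positivity
  have he1 : e ≤ η' / 4 := by rw [hed]; exact min_le_left _ _
  have hec : cc * e ≤ η' / 4 := by nlinarith
  have he3 : e ≤ η' ^ 2 / 8 := by rw [hed]; exact (min_le_right _ _).trans (min_le_right _ _)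
  obtain ⟨ε, hεd⟩ : ∃ ε : ℝ, ε = min (e / 40) (1 / 100) := ⟨_, rfl⟩
  have hε : 0 < ε := by
    rw [hεd]
    positivity
  have hε1 : ε ≤ 1 / 100 := by rw [hεd]; exact min_le_right _ _
  have hεe : 40 * ε ≤ e := by
    have : ε ≤ e / 40 := by rw [hεd]; exact min_le_left _ _
    linarith
  obtain ⟨η, hη, hη1, h1, h2, hFG⟩ := hall ε hε
  obtain ⟨a0, Δ, j0, ha0, ha1, ha2, hΔ, hΔ1, hCΔ, hj, ht⟩ := pa η c2 ε hη hη1 hc2 hc21 hε hε1
  obtain ⟨G, EG, hWG, hG0, hG1, hG2⟩ := hFG a0 ha0 ha1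
  obtain ⟨c, hcd⟩ : ∃ c : ℝ, c = c2 * a0 := ⟨_, rfl⟩
  obtain ⟨C, hCd⟩ : ∃ C : ℝ, C = 2 * Real.exp (3 / a0) := ⟨_, rfl⟩
  rw [← hcd, ← hCd] at hWG hCΔ
  have hc : 0 < c := by rw [hcd]; positivity
  have hc1 : c ≤ 1 := by
    rw [hcd]
    nlinarith
  have hC1 : 1 ≤ C := by
    rw [hCd]
    have : (1 : ℝ) ≤ Real.exp (3 / a0) := Real.one_le_exp (by positivity)
    linarith
  obtain ⟨d1, hd1, L1⟩ := h1
  obtain ⟨d2, hd2, L2⟩ := h2
  obtain ⟨d4, hd4, L4⟩ := hWG.law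
  obtain ⟨C1, hC1d⟩ : ∃ C1 : ℝ, C1 = 4 * C ^ 2 / c := ⟨_, rfl⟩
  have hC10 : 0 ≤ C1 := by rw [hC1d]; positivity
  obtain ⟨P0, hP0d⟩ : ∃ P0 : ℝ, P0 = C1 / e + 1 := ⟨_, rfl⟩
  have hP00 : 0 < P0 := by rw [hP0d]; positivity
  have hCP : C1 / P0 ≤ e := by
    rw [div_le_iff₀ hP00, hP0d, mul_add, mul_div_cancel₀ _ he0.ne']
    linarith
  obtain ⟨c0, hc0d⟩ : ∃ c0 : ℝ, c0 = min (min d1 d2) d4 := ⟨_, rfl⟩
  have hc0 : 0 < c0 := by
    rw [hc0d]
    exact lt_min (lt_min hd1 hd2) hd4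
  obtain ⟨s, L, l, b, B, κ, hs, hSt, hκ, hKa, hP0⟩ :=
    params η ε a0 Δ j0 hη hη1 hε hε1 ha0 ha1 ha2 hΔ hΔ1 hj ht k hk c c0 P0 hc hc0
  obtain ⟨a, had⟩ : ∃ a : ℝ, a = a0 / 2 ^ L := ⟨_, rfl⟩
  rw [← had] at hSt hKa
  have ha : 0 < a := by
    rw [had]
    positivity
  have haL : a * 2 ^ L = a0 := by
    rw [had]
    field_simp
  have haL1 : a * 2 ^ L ≤ 1 / 20 := by rw [haL]; exact ha1
  have ha20 : a ≤ 1 / 20 := by
    have h3 : a ≤ a * 2 ^ L := le_mul_of_one_le_right ha.le (one_le_pow₀ (by norm_num))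
    exact h3.trans haL1
  have hcard : Fintype.card (Fin k × Fin s) = k * s := by
    rw [Fintype.card_prod, Fintype.card_fin, Fintype.card_fin]
  have hne : Nonempty (Fin k × Fin s) := ⟨(⟨0, hk⟩, ⟨0, hs⟩)⟩
  have hK : (Fintype.card (Fin k × Fin s) : ℝ) * a ≤ c0 := by
    rw [hcard]
    exact hKa
  have m1 : c0 ≤ d1 := by rw [hc0d]; exact (min_le_left _ _).trans (min_le_left _ _)
  have m2 : c0 ≤ d2 := by rw [hc0d]; exact (min_le_left _ _).trans (min_le_right _ _)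
  have m4 : c0 ≤ d4 := by rw [hc0d]; exact min_le_right _ _
  obtain ⟨M, hMd⟩ : ∃ M : ℕ, M = ⌊2 / a⌋₊ := ⟨_, rfl⟩
  obtain ⟨S0, hS0⟩ : ∃ S0 : ℝ, S0 = ((l : ℝ) + 1) ^ (k * s) * ((2 : ℝ) ^ M) ^ (L * (k * s)) :=
    ⟨_, rfl⟩
  have hS00 : 0 < S0 := by rw [hS0]; positivity
  refine ⟨s, a, 2 * S0 ^ 2, hs, ha, ha20, by positivity, fun A => ?_⟩
  obtain ⟨w1, E1⟩ := L1 (Fin k × Fin s) a L ha haL1 (hK.trans m1) A
  obtain ⟨w2, E2⟩ := L2 (Fin k × Fin s) a L ha haL1 (hK.trans m2) A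
  obtain ⟨w4, E4⟩ := L4 (Fin k × Fin s) a L ha haL1 (hK.trans m4) A
  refine ⟨max (max w1 w2) (max w4 (k * s)), fun w hw => ?_⟩
  have hw1 : w1 ≤ w := by omega
  have hw2 : w2 ≤ w := by omega
  have hw4 : w4 ≤ w := by omega
  have hw5 : k * s ≤ w := by omega
  have T6 := hM ε a0 hε ha0 L
  rw [← had] at T6
  filter_upwards [E1 w hw1, E2 w hw2, E4 w hw4, tx_bdU A, T6, hWG.bd, hWG.lo, hWG.hi, hG1, hG2,
    eventually_ge_atTop (4 : ℝ)] with x x1 x2 x4 x5 x6 xG1 xG2 xG3 xM1 xM2 hx4 V W β hO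
  obtain ⟨h, hinj, hmem, hsur⟩ := enum V hO.dis hO.card
  have hk0 : Okk A w x h W β := by
    refine ⟨hinj, fun q => hO.hh q.1 _ (hmem q), hO.sqf, hO.pw, hO.wle, ?_, fun q => hO.cop q.1 _ (hmem q)⟩
    intro q q' hq p hp hpd
    exact hO.dif q.1 q'.1 _ (hmem q) _ (hmem q') (fun h3 => hq (hinj h3)) p hp hpd
  have hx1 : 1 ≤ x := by linarith
  have hW0 : 0 < W := Nat.pos_of_ne_zero hO.sqf.ne_zero
  have hnm : 0 < nm x a W (Fintype.card (Fin k × Fin s)) := by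
    rw [hcard]
    exact nm_posU hx4 hW0 hO.pw hw5
  obtain ⟨T, hT⟩ : ∃ T : Finset ℕ, T = TT x a h W β := ⟨_, rfl⟩
  obtain ⟨ω, hω⟩ : ∃ ω : ℕ → ℝ, ω = ww x a W (Fintype.card (Fin k × Fin s)) := ⟨_, rfl⟩
  obtain ⟨m, hm⟩ : ∃ m : Fin k × Fin s → Fin L → ℕ → ℕ, m = mm x a h := ⟨_, rfl⟩
  have hmemT : ∀ N, N ∈ T ↔ N ∈ Tx x ∧ Adm x a h W β N := by
    intro N
    rw [hT, TT, mem_filter]
  have hω0 : ∀ N, 0 ≤ ω N := by
    intro N
    rw [hω, ww]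
    exact div_nonneg (gw_pos x N).le hnm.le
  have A1 : AppT T ω m a η (Real.exp (-(10 / a))) (fun _ => 1) 1 := by
    rw [hT, hω, hm]
    exact (app_iff x a h W β η _ _ _).1 (x1 h W β hk0)
  have A2 : ∀ y : Fin k × Fin s, ∀ A : Fin k × Fin s → Fin L → ℕ, (∀ i, A y i = 0) →
      sl a L A ≤ η →
      |AvT T ω (fun N => mon m A N * (if (N + h y).Prime then 1 else 0)) - sv L A * pr x a| ≤
        Real.exp (-(10 / a)) := by
    intro y A hA hA2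
    have h5 := x2 h W β hk0 y A hA hA2
    rw [hT, hω, hm, avt_eq]
    refine le_trans (le_of_eq ?_) h5
    congr 3
  obtain ⟨A5, A6⟩ := x4 h W β hk0 haL
  have hxx : ∀ y : Fin k × Fin s, ∀ N ∈ T, 0 < N ∧ Real.sqrt x < ((N + h y : ℕ) : ℝ) ∧
      ((N + h y : ℕ) : ℝ) ≤ x ^ (1 + 1 / 1000 : ℝ) := fun y N hN =>
    x5 (h y) (hk0.hh y) N ((hmemT N).1 hN).1
  have hpos : ∀ y : Fin k × Fin s, ∀ N ∈ T, 0 < N + h y := by
    intro y N hN
    have := (hxx y N hN).1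
    omega
  have lgG : Lg T ω m a η (Real.exp (-(10 / a))) ε Δ κ c C (fun y N => G x (N + h y)) (EG x) := by
    refine ⟨fun y => ?_, fun y z hyz => ?_, fun y N hN => ?_, hc, hc1, hC1, xG2, xG3, hCΔ, hκ⟩
    · rw [hT, hω, hm]
      exact (app_iff x a h W β η _ _ _).1 (A5 y)
    · rw [hT, hω, hm]
      exact (app_iff x a h W β η _ _ _).1 (A6 y z hyz)
    · exact xG1 (N + h y) (hpos y N hN) (hxx y N hN).2.2
  have hsq : ∀ n : ℕ, Real.sqrt x < (n : ℝ) → x ^ a0 ≤ (n : ℝ) := by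
    intro n hn
    refine le_trans ?_ hn.le
    rw [Real.sqrt_eq_rpow]
    exact Real.rpow_le_rpow_of_exponent_le hx1 (by linarith)
  have hSt' : St (Fintype.card (Fin k × Fin s)) L l b (fun i : Fin L => 2 * (j0 + L - i)) a B η
      (Real.exp (-(10 / a))) ε Δ κ := by
    rw [hcard]
    exact hSt
  have hprime : ∀ y : Fin k × Fin s, ∀ N ∈ T, (N + h y).Prime →
      (∀ i, m y i N = 0) ∧ 1 ≤ G x (N + h y) := by
    intro y N hN hp
    have h6 := hxx y N hN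
    refine ⟨fun i => ?_, xM1 (N + h y) hp h6.2.1 h6.2.2⟩
    rw [hm, mm]
    exact mc_prime hx1 ha haL hp (hsq _ h6.2.1) i.2
  have hprr : cc * EG x ≤ (1 + ε) ^ 2 * (2 ^ L * pr x a) := by
    have h8 : pr x a0 ≤ (1 + ε) * (2 ^ L * pr x a) := by
      have h9 : (2 : ℝ) ^ L * ((1 / 2) ^ L * pr x a0) ≤ 2 ^ L * ((1 + ε) * pr x a) :=
        mul_le_mul_of_nonneg_left x6 (by positivity)
      have h10 : (2 : ℝ) ^ L * ((1 / 2) ^ L * pr x a0) = pr x a0 := by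
        rw [← mul_assoc, ← mul_pow]
        norm_num
      rw [h10] at h9
      linarith
    calc cc * EG x ≤ (1 + ε) * pr x a0 := xM2
      _ ≤ (1 + ε) * ((1 + ε) * (2 ^ L * pr x a)) := by
          apply mul_le_mul_of_nonneg_left h8
          positivity
      _ = _ := by ring
  obtain ⟨z, hz⟩ : ∃ z : ℝ, z = AvT T ω (fun N => sg b l B m N ^ 2) := ⟨_, rfl⟩
  have hz2 : 1 / 2 ≤ z := by
    rw [hz]
    have h3 := (fa_z hSt' A1).1
    have h4 : 1 ≤ bn b l := bn_ge hSt.hb hSt.ht l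
    have h5 : 1 ≤ bn b l ^ Fintype.card (Fin k × Fin s) := one_le_pow₀ h4
    have h6 : (1 / 4 : ℝ) ^ L ≤ 1 := pow_le_one₀ (by norm_num) (by norm_num)
    have h7 : Δ * (1 / 4 : ℝ) ^ L ≤ 1 / 100 := by
      calc Δ * (1 / 4 : ℝ) ^ L ≤ Δ * 1 := mul_le_mul_of_nonneg_left h6 hΔ.le
        _ ≤ 1 / 100 := by linarith
    have h8 : (1 - ε) * 1 ≤ (1 - ε) * bn b l ^ Fintype.card (Fin k × Fin s) :=
      mul_le_mul_of_nonneg_left h5 (by linarith)
    linarith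
  have hz0 : 0 < z := by linarith
  have hsgN : ∀ N ∈ T, sg b l B m N ^ 2 ≤ S0 ^ 2 := by
    intro N hN
    have hcount : ∀ (y : Fin k × Fin s) (i : Fin L), m y i N ≤ M := by
      intro y i
      have h6 := hxx y N hN
      rw [hm, mm, hMd]
      refine Nat.le_floor ?_
      refine mc_le (by linarith) ha (hpos y N hN) (h6.2.2.trans ?_) i
      exact Real.rpow_le_rpow_of_exponent_le hx1 (by norm_num)
    have h7 := sg_le (l := l) (B := B) hSt.hb hSt.ht m N M hcount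
    rw [hcard, ← hS0] at h7
    exact sq_le_sq' (abs_le.1 h7).1 (abs_le.1 h7).2
  have hTsub : T ⊆ Tx x := fun N hN => ((hmemT N).1 hN).1
  refine ⟨by rw [← hcard]; exact hnm, fun N => if N ∈ T then ω N * sg b l B m N ^ 2 / z else 0,
    ?_, ?_, ?_, ?_, ?_⟩
  · intro N
    show 0 ≤ if N ∈ T then ω N * sg b l B m N ^ 2 / z else 0
    split_ifs
    · have := hω0 N
      positivity
    · exact le_rfl
  · intro N hN
    show (if N ∈ T then ω N * sg b l B m N ^ 2 / z else 0) ≤ 2 * S0 ^ 2 * gw x N / nm x a W (k * s)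
    have h9 : 2 * S0 ^ 2 * gw x N / nm x a W (k * s) = 2 * S0 ^ 2 * ω N := by
      rw [hω, ww, hcard]
      ring
    rw [h9]
    split_ifs with hNT
    · rw [div_le_iff₀ hz0]
      have h10 := hsgN N hNT
      have h11 := hω0 N
      have h12 : ω N * sg b l B m N ^ 2 ≤ ω N * S0 ^ 2 := mul_le_mul_of_nonneg_left h10 h11
      have h13 : 0 ≤ ω N * S0 ^ 2 := by positivity
      have h14 : 1 / 2 * (2 * (ω N * S0 ^ 2)) ≤ z * (2 * (ω N * S0 ^ 2)) :=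
        mul_le_mul_of_nonneg_right hz2 (by positivity)
      linarith
    · have h11 := hω0 N
      positivity
  · intro N hN hN0
    have hNT : N ∈ T := by
      by_contra h15
      exact hN0 (if_neg h15)
    have h16 := ((hmemT N).1 hNT).2
    refine ⟨h16.1, fun j y hy p hp hpd => ?_⟩
    obtain ⟨q, hq⟩ := hsur j y hy
    rw [← hq] at hpd
    exact h16.2 q p hp hpd
  · rw [← sum_filter]
    have h17 : (Tx x).filter (fun N => N ∈ T) = T := by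
      ext N
      rw [mem_filter]
      exact ⟨fun h => h.2, fun h => ⟨hTsub h, h⟩⟩
    rw [h17, ← sum_div, div_eq_one_iff_eq hz0.ne', hz]
    rfl
  · intro j inst
    have hidx : ∀ y ∈ V j, h (Function.invFun h y) = y := fun y hy =>
      Function.invFun_eq (hsur j y hy)
    have hb := block_step h (Function.invFun h) T ω m hSt' hω0 A1 (G x) lgG (hG0 x) hprime A2 hcc hcc1 hprr
      e P0 hεe hP00 (V j) hidx (by rw [hO.card j]; exact hP0)
    rw [← hC1d, ← hz] at hb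
    have h3 : Real.sqrt (e + C1 / P0) ≤ η' / 2 := by
      rw [Real.sqrt_le_left (by positivity)]
      nlinarith
    have h4 : cc - η' ≤ (1 - e) * cc - Real.sqrt (e + C1 / P0) := by nlinarith
    refine h4.trans (hb.trans ?_)
    refine (le_of_eq (sum_congr (s₂ := T.filter (fun N => ∃ y ∈ V j, (N + y).Prime))
      (g := fun N => if N ∈ T then ω N * sg b l B m N ^ 2 / z else 0)
      (by ext N; simp only [mem_filter]) fun N hN => ?_)).trans ?_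
    · rw [mem_filter] at hN
      rw [if_pos hN.1]
    apply sum_le_sum_of_subset_of_nonneg
    · intro N hN
      rw [mem_filter] at hN ⊢
      exact ⟨hTsub hN.1, hN.2⟩
    · intro N _ _
      show 0 ≤ if N ∈ T then ω N * sg b l B m N ^ 2 / z else 0
      split_ifs
      · have := hω0 N
        positivity
      · exact le_rfl

end Pool.Agent.H92.UM
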