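import Pool.Agent.H92.UM.ObQ
import Pool.Agent.H92.UM.MainQ

/-!
# [H92 UM MBQ] `main_BQ`: the interface of helper61 for AlmostAllTuples (MP_8923e7_nt, THEOREM G (c))
-/

namespace Pool.Agent.H92.UM

open Finset Filter Pool.Agent.H21.MT Pool.Agent.H92.MM Pool.Agent.H61.UL Pool.Agent.H61.UN

open Classical in
theorem main_BQ (Q : ℕ → Prop) (hU : BlkQ Q) (e : ℝ) (he : 0 < e) (he1 : e ≤ 1 / 100) (m k : ℕ)
    (hm : k + 1 ≤ m) :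
    ∃ (s : ℕ) (a : ℝ), 1 ≤ s ∧ 0 < a ∧ a ≤ 1 / 20 ∧ ∀ A δ : ℝ, 0 < A → 0 < δ →
      ∃ c T : ℝ, 0 < c ∧ 1 ≤ T ∧
      ∀ᶠ x : ℝ in atTop, ∀ L : ℕ, 1 ≤ L → (L : ℝ) ≤ Real.log x ^ A →
        ∀ BB : Finset (Fin m × Fin s → ℕ), (∀ v ∈ BB, v ∈ IJ (Fin m × Fin s) L ∧ Admv v) →
          δ * (L : ℝ) ^ (m * s) ≤ BB.card →
        ∀ G : ℕ → Finset (Fin (k + 1) → ℕ),
          (∀ N ∈ Tx x, ∀ r ∈ G N, ∀ i, r i ≤ L ∧ Rgh (x ^ a) (N + r i)) →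
          (∀ v ∈ BB, ∀ N ∈ Tx x, (13 / 50 - 2 * e) * m ≤ (pc v N : ℝ) →
            (∀ j : Fin m, ∃ l : Fin s, Q (N + v (j, l))) →
            ∃ i : Fin (k + 1) → Fin m × Fin s, Function.Injective i ∧ v ∘ i ∈ G N) →
          c * x * ((L : ℝ) / Real.log x) ^ (k + 1) *
              (min 1 ((L : ℝ) / Real.log x)) ^ (m * s - (k + 1)) ≤
            ∑ N ∈ (Tx x).filter (fun N : ℕ => (N : ℝ) ≤ T * x), ((G N).card : ℝ) := by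
  obtain ⟨s, a, hs, ha, ha1, H⟩ := one_boxQ Q hU e he he1 m (by omega)
  refine ⟨s, a, hs, ha, ha1, fun A δ hA hδ => ?_⟩
  obtain ⟨c0, hc0, hob⟩ := H A hA
  obtain ⟨c, T, lam, hc, hT, -, hev⟩ := main_G m s k hs hm a ha ha1 (EvQ Q e) A δ c0 hδ hc0 hob
  refine ⟨c, T, hc, hT, ?_⟩
  filter_upwards [hev] with x hx L hL hLA BB hBB hcard G hG1 hG2
  exact hx L hL hLA False (fun h => h.elim) BB hBB hcard G hG1
    fun v hv N hN _ hE _ => hG2 v hv N hN hE.1 hE.2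

open Classical in
/-- the same for `P_2` numbers, without hypothesis -/
theorem main_BQ2 (e : ℝ) (he : 0 < e) (he1 : e ≤ 1 / 100) (m k : ℕ)
    (hm : k + 1 ≤ m) :
    ∃ (s : ℕ) (a : ℝ), 1 ≤ s ∧ 0 < a ∧ a ≤ 1 / 20 ∧ ∀ A δ : ℝ, 0 < A → 0 < δ →
      ∃ c T : ℝ, 0 < c ∧ 1 ≤ T ∧
      ∀ᶠ x : ℝ in atTop, ∀ L : ℕ, 1 ≤ L → (L : ℝ) ≤ Real.log x ^ A →
        ∀ BB : Finset (Fin m × Fin s → ℕ), (∀ v ∈ BB, v ∈ IJ (Fin m × Fin s) L ∧ Admv v) →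
          δ * (L : ℝ) ^ (m * s) ≤ BB.card →
        ∀ G : ℕ → Finset (Fin (k + 1) → ℕ),
          (∀ N ∈ Tx x, ∀ r ∈ G N, ∀ i, r i ≤ L ∧ Rgh (x ^ a) (N + r i)) →
          (∀ v ∈ BB, ∀ N ∈ Tx x, (13 / 50 - 2 * e) * m ≤ (pc v N : ℝ) →
            (∀ j : Fin m, ∃ l : Fin s, Pool.Agent.H21.CP.Q2 (N + v (j, l))) →
            ∃ i : Fin (k + 1) → Fin m × Fin s, Function.Injective i ∧ v ∘ i ∈ G N) →
          c * x * ((L : ℝ) / Real.log x) ^ (k + 1) *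
              (min 1 ((L : ℝ) / Real.log x)) ^ (m * s - (k + 1)) ≤
            ∑ N ∈ (Tx x).filter (fun N : ℕ => (N : ℝ) ≤ T * x), ((G N).card : ℝ) :=
  main_BQ Pool.Agent.H21.CP.Q2 blkQ e he he1 m k hm

end Pool.Agent.H92.UM
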