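import Pool.Agent.H92.UM.Medq
import Pool.Agent.H61.UL.Def

/-!
# [H92 UM BLKQ] MP_8923e7_nt, THEOREM G (c): the interface `BlkU` of part B with the additional clause on `Q`

`BlkQ Q` is `BlkU` with one clause more: every cell contains a number `N + y` with `Q (N + y)` with probability
at least `1 - e`. `blkQ : BlkQ Q2` (`Q2 n`: at most two prime factors, all larger than `n^(1/8)`).
-/

namespace Pool.Agent.H92.UM

open Finset Filter Pool.Agent.H21.MT Pool.Agent.H92.MM Pool.Agent.H61.UL Pool.Agent.H96.UL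

open Classical in
/-- `BlkU` with the clause on `Q` -/
def BlkQ (Q : ℕ → Prop) : Prop := ∀ e : ℝ, 0 < e → ∀ m : ℕ, 1 ≤ m →
  ∃ (s : ℕ) (a C2 : ℝ), 1 ≤ s ∧ 0 < a ∧ a ≤ 1 / 20 ∧ 0 < C2 ∧
    ∀ A : ℝ, 0 < A → ∃ w0 : ℕ, ∀ w : ℕ, w0 ≤ w → ∀ᶠ x : ℝ in atTop,
      ∀ (V : Fin m → Finset ℕ) (W b : ℕ), (∀ i j, i ≠ j → Disjoint (V i) (V j)) →
        (∀ j, (V j).card = s) → OkH A w x (univ.biUnion V) W b →
        ∃ μ : ℕ → ℝ, (∀ N, 0 ≤ μ N) ∧
          (∀ N, μ N ≠ 0 → N ∈ Tx x ∧ AdmH x a (univ.biUnion V) W b N) ∧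
          (∀ N, μ N ≤ C2 * gw x N / nm x a W (m * s)) ∧ ∑ N ∈ Tx x, μ N = 1 ∧
          (∀ j, 13 / 50 - e ≤ ∑ N ∈ (Tx x).filter (fun N => ∃ y ∈ V j, (N + y).Prime), μ N) ∧
          (∀ j, 1 - e ≤ ∑ N ∈ (Tx x).filter (fun N => ∃ y ∈ V j, Q (N + y)), μ N)

theorem blkQ_of_medq (Q : ℕ → Prop) (H : ∀ k : ℕ, 1 ≤ k → MedQ (13 / 50) Q k) : BlkQ Q := by
  classical
  intro e he m hm
  obtain ⟨s, a, C2, hs, ha, ha1, hC2, H⟩ := H m hm e he
  refine ⟨s, a, C2, hs, ha, ha1, hC2, fun A _ => ?_⟩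
  obtain ⟨w0, H⟩ := H A
  refine ⟨w0, fun w hw => ?_⟩
  filter_upwards [H w hw] with x hx V W b hdis hcard hok
  have hmem : ∀ j, ∀ y ∈ V j, y ∈ univ.biUnion V := fun j y hy =>
    mem_biUnion.2 ⟨j, mem_univ _, hy⟩
  have hV : OkV A w s x V W b := by
    refine ⟨hdis, hcard, fun j y hy => hok.hle y (hmem j y hy), hok.sq, hok.wW, hok.Wle, ?_,
      fun j y hy => hok.cop y (hmem j y hy)⟩
    intro j j' y hy z hz hyz p hp hd
    rcases Nat.lt_or_gt_of_ne hyz with h | h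
    · refine hok.dif y (hmem j y hy) z (hmem j' z hz) h p hp ?_
      have h1 : (p : ℤ) ∣ ((z - y : ℕ) : ℤ) := by
        rw [Nat.cast_sub h.le, ← dvd_neg, neg_sub]
        exact hd
      exact_mod_cast h1
    · refine hok.dif z (hmem j' z hz) y (hmem j y hy) h p hp ?_
      have h1 : (p : ℤ) ∣ ((y - z : ℕ) : ℤ) := by
        rw [Nat.cast_sub h.le]
        exact hd
      exact_mod_cast h1
  obtain ⟨hnm, μ, h0, h1, h2, h3, h4, h7⟩ := hx V W b hV
  refine ⟨fun N => if N ∈ Tx x then μ N else 0, fun N => ?_, fun N hN => ?_, fun N => ?_, ?_, ?_, ?_⟩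
  · dsimp only
    split_ifs
    · exact h0 N
    · exact le_rfl
  · dsimp only at hN
    have hT : N ∈ Tx x := by
      by_contra hno
      exact hN (if_neg hno)
    rw [if_pos hT] at hN
    obtain ⟨h5, h6⟩ := h2 N hT hN
    refine ⟨hT, h5, fun y hy p hp hpy => ?_⟩
    obtain ⟨j, _, hj⟩ := mem_biUnion.1 hy
    exact h6 j y hj p hp hpy
  · by_cases hT : N ∈ Tx x
    · simp only [hT, if_true]
      exact h1 N hT
    · simp only [hT, if_false]
      have := gw_pos x N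
      positivity
  · rw [← h3]
    exact sum_congr rfl fun N hN => if_pos hN
  · intro j
    refine (h4 j (Classical.decPred _)).trans (le_of_eq ?_)
    refine sum_congr ?_ ?_
    · ext N
      simp only [mem_filter]
    · intro N hN
      exact (if_pos (mem_filter.1 hN).1).symm
  · intro j
    refine (h7 j (Classical.decPred _)).trans (le_of_eq ?_)
    refine sum_congr ?_ ?_
    · ext N
      simp only [mem_filter]
    · intro N hN
      exact (if_pos (mem_filter.1 hN).1).symm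

/-- the block form with `P_2` numbers, proved -/
theorem blkQ : BlkQ Pool.Agent.H21.CP.Q2 := blkQ_of_medq _ medq_uniform

end Pool.Agent.H92.UM
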