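import Pool.Agent.H92.UM.Ls

/-!
# MP_8923e7_nt, Theorem G (form with almost primes): one block of shifts contains a `Q` number, at a fixed `x`
-/

set_option autoImplicit false

namespace Pool.Agent.H92.UM

open Finset Filter Pool.Agent.H21.MT Pool.Agent.H92.MM

open Classical in
/-- one block contains a number with the property `Q` with probability `≥ 1 - (e + C1/P0)` -/
theorem block_stepQ {ι : Type} [Fintype ι] [DecidableEq ι] [Nonempty ι] (Q : ℕ → Prop) (h : ι → ℕ)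
    (idx : ℕ → ι)
    (T : Finset ℕ) (ω : ℕ → ℝ) {L l b : ℕ} {bi : Fin L → ℕ} {a B η ϖ ε Δ κ : ℝ}
    (m : ι → Fin L → ℕ → ℕ) (hS : St (Fintype.card ι) L l b bi a B η ϖ ε Δ κ)
    (hω : ∀ N, 0 ≤ ω N) (h1 : AppT T ω m a η ϖ (fun _ => 1) 1)
    (F : ℕ → ℝ) {EF c C : ℝ} (hF : Lg T ω m a η ϖ ε Δ κ c C (fun x N => F (N + h x)) EF)
    (hQ : ∀ x : ι, ∀ N ∈ T, (∀ i, m x i N = 0) → 0 < F (N + h x) → Q (N + h x))
    (e P0 : ℝ) (he : 40 * ε ≤ e) (hP : 0 < P0)
    (V : Finset ℕ) (hV : ∀ y ∈ V, h (idx y) = y) (hP0 : P0 ≤ V.card * (c / 4 * AA b l L)) :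
    1 - (e + 4 * C ^ 2 / c / P0) ≤
      ∑ N ∈ T.filter (fun N => ∃ y ∈ V, Q (N + y)),
        ω N * sg b l B m N ^ 2 / AvT T ω (fun N => sg b l B m N ^ 2) := by
  have hz : 0 < AvT T ω (fun N => sg b l B m N ^ 2) := co_z hS h1 hF.hκ
  have hAA : 0 ≤ AA b l L := AA_nonneg hS.hb hS.ht l L
  have hε := hS.hε
  have hc0 := hF.c0
  obtain ⟨μ, hμd⟩ : ∃ μ : ℕ → ℝ, μ = fun N => ω N * sg b l B m N ^ 2 /
    AvT T ω (fun N => sg b l B m N ^ 2) := ⟨_, rfl⟩
  obtain ⟨g, hg⟩ : ∃ g : ℕ → ℕ → ℝ, g = fun y N => F (N + y) * r0 m (idx y) N := ⟨_, rfl⟩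
  have hgy : ∀ y ∈ V, g y = fun N => (fun x N => F (N + h x)) (idx y) N * r0 m (idx y) N := by
    intro y hy
    rw [hg]
    funext N
    show F (N + y) * r0 m (idx y) N = F (N + h (idx y)) * r0 m (idx y) N
    rw [hV y hy]
  have hμ0 : ∀ N, 0 ≤ μ N := by
    intro N
    rw [hμd]
    have := hω N
    positivity
  have hμ1 : ∑ N ∈ T, μ N = 1 := by
    rw [hμd, ← sum_div]
    exact div_self hz.ne'
  have hEx : ∀ f : ℕ → ℝ, Pool.Agent.H21.CP.Ex T μ f = emu b l B T ω m f := by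
    intro f
    rw [hμd]
    exact ex_emu b l B T ω m f
  have hm : ∀ y ∈ V, c / 4 * AA b l L ≤ Pool.Agent.H21.CP.Ex T μ (g y) := by
    intro y hy
    rw [hEx, hgy y hy]
    exact co_mean hS hω h1 hF (idx y)
  have hm0 : 0 ≤ c / 4 * AA b l L := by positivity
  have hMom : Pool.Agent.H21.CP.Mom T μ V g e (4 * C ^ 2 / c) P0 := by
    refine ⟨fun y hy => hm0.trans (hm y hy), fun y hy => ?_, fun y hy z hz' hyz => ?_, ?_⟩
    · rw [hEx, hEx, hgy y hy]
      exact co_sq hS hω h1 hF (idx y)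
    · have hne : idx y ≠ idx z := by
        intro h2
        apply hyz
        rw [← hV y hy, ← hV z hz', h2]
      have h3 := co_pair hS hω h1 hF hne
      have h4 := hm y hy
      have h5 := hm z hz'
      rw [hEx] at h4 h5
      rw [hEx, hEx, hEx]
      rw [hgy y hy] at h4 ⊢
      rw [hgy z hz'] at h5 ⊢
      refine h3.trans ?_
      apply mul_le_mul_of_nonneg_right (by linarith)
      exact mul_nonneg (hm0.trans h4) (hm0.trans h5)
    · refine hP0.trans ?_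
      rw [← nsmul_eq_mul, ← sum_const]
      exact sum_le_sum fun y hy => hm y hy
  have he0 : 0 ≤ e := by linarith
  have hC1 : 0 ≤ 4 * C ^ 2 / c := by positivity
  have hfin := Pool.Agent.H21.CP.block_pos hμ0 hμ1 he0 hC1 hP hMom
  refine hfin.trans ?_
  have h20 : ∑ N ∈ T.filter (fun N => ∃ y ∈ V, Q (N + y)),
      ω N * sg b l B m N ^ 2 / AvT T ω (fun N => sg b l B m N ^ 2) =
      ∑ N ∈ T.filter (fun N => ∃ y ∈ V, Q (N + y)), μ N := by rw [hμd]
  rw [h20]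
  apply sum_le_sum_of_subset_of_nonneg
  · intro N hN
    rw [mem_filter] at hN ⊢
    refine ⟨hN.1, ?_⟩
    obtain ⟨y, hy, hy0⟩ : ∃ y ∈ V, 0 < g y N := by
      by_contra hno
      push Not at hno
      exact absurd (sum_nonpos hno) (not_le.2 hN.2)
    refine ⟨y, hy, ?_⟩
    rw [hgy y hy] at hy0
    have h7 : 0 < F (N + h (idx y)) * r0 m (idx y) N := hy0
    by_cases h8 : ∀ i, m (idx y) i N = 0
    · rw [r0, if_pos h8, mul_one] at h7
      have h9 := hQ (idx y) N hN.1 h8 h7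
      rw [hV y hy] at h9
      exact h9
    · rw [r0, if_neg h8, mul_zero] at h7
      exact absurd h7 (lt_irrefl _)
  · intro N _ _
    exact hμ0 N

end Pool.Agent.H92.UM
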