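import Pool.Agent.H92.UM.ObL
import Pool.Agent.H92.UM.MainQ

/-!
# [H92 UM MBL] `main_BL`: `main_BQ` with weights on the cells (MP_8923e7_nt, AlmostAllTuples with weights)

`Λ` is a finite set of weight vectors; `s, a, c, T` do not depend on `lam ∈ Λ`.
-/

namespace Pool.Agent.H92.UM

open Finset Filter Pool.Agent.H21.MT Pool.Agent.H92.MM Pool.Agent.H61.UL Pool.Agent.H61.UN

open Classical in
/-- the conclusion for one weight vector -/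
private def Cl (Q : ℕ → Prop) (e : ℝ) (m s k : ℕ) (a δ c T x : ℝ) (L : ℕ) (lam : Fin m → ℝ) : Prop :=
  ∀ BB : Finset (Fin m × Fin s → ℕ), (∀ v ∈ BB, v ∈ IJ (Fin m × Fin s) L ∧ Admv v) →
          δ * (L : ℝ) ^ (m * s) ≤ BB.card →
        ∀ G : ℕ → Finset (Fin (k + 1) → ℕ),
          (∀ N ∈ Tx x, ∀ r ∈ G N, ∀ i, r i ≤ L ∧ Rgh (x ^ a) (N + r i)) →
          (∀ v ∈ BB, ∀ N ∈ Tx x, 13 / 50 - 2 * e ≤
              (∑ j : Fin m, if (∃ l : Fin s, (N + v (j, l)).Prime) then lam j else 0) →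
            (∀ j : Fin m, ∃ l : Fin s, Q (N + v (j, l))) →
            ∃ i : Fin (k + 1) → Fin m × Fin s, Function.Injective i ∧ v ∘ i ∈ G N) →
          c * x * ((L : ℝ) / Real.log x) ^ (k + 1) *
              (min 1 ((L : ℝ) / Real.log x)) ^ (m * s - (k + 1)) ≤
            ∑ N ∈ (Tx x).filter (fun N : ℕ => (N : ℝ) ≤ T * x), ((G N).card : ℝ)

private theorem cl_mono {Q : ℕ → Prop} {e : ℝ} {m s k : ℕ} {a δ c T c' T' x : ℝ} {L : ℕ}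
    {lam : Fin m → ℝ} (hc : c' ≤ c) (hT : T ≤ T') (hx : 1 ≤ x)
    (h : Cl Q e m s k a δ c T x L lam) : Cl Q e m s k a δ c' T' x L lam := by
  intro BB h1 h2 G h3 h4
  have h5 := h BB h1 h2 G h3 h4
  have hl : 0 ≤ Real.log x := Real.log_nonneg hx
  have hL : (0 : ℝ) ≤ (L : ℝ) / Real.log x := div_nonneg (Nat.cast_nonneg _) hl
  refine le_trans ?_ (h5.trans ?_)
  · refine mul_le_mul_of_nonneg_right (mul_le_mul_of_nonneg_right
      (mul_le_mul_of_nonneg_right hc (by linarith)) (by positivity)) ?_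
    exact pow_nonneg (le_min zero_le_one hL) _
  · refine sum_le_sum_of_subset_of_nonneg ?_ fun N _ _ => Nat.cast_nonneg _
    intro N hN
    rw [mem_filter] at hN ⊢
    exact ⟨hN.1, hN.2.trans (mul_le_mul_of_nonneg_right hT (by linarith))⟩

open Classical in
theorem main_BL (Q : ℕ → Prop) (hU : BlkQ Q) (e : ℝ) (he : 0 < e) (he1 : e ≤ 1 / 100) (m k : ℕ)
    (hm : k + 1 ≤ m) (Λ : Finset (Fin m → ℝ))
    (hΛ : ∀ lam ∈ Λ, (∀ j, 0 ≤ lam j) ∧ ∑ j, lam j = 1) :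
    ∃ (s : ℕ) (a : ℝ), 1 ≤ s ∧ 0 < a ∧ a ≤ 1 / 20 ∧ ∀ A δ : ℝ, 0 < A → 0 < δ →
      ∃ c T : ℝ, 0 < c ∧ 1 ≤ T ∧
      ∀ᶠ x : ℝ in atTop, ∀ L : ℕ, 1 ≤ L → (L : ℝ) ≤ Real.log x ^ A → ∀ lam ∈ Λ,
        ∀ BB : Finset (Fin m × Fin s → ℕ), (∀ v ∈ BB, v ∈ IJ (Fin m × Fin s) L ∧ Admv v) →
          δ * (L : ℝ) ^ (m * s) ≤ BB.card →
        ∀ G : ℕ → Finset (Fin (k + 1) → ℕ),
          (∀ N ∈ Tx x, ∀ r ∈ G N, ∀ i, r i ≤ L ∧ Rgh (x ^ a) (N + r i)) →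
          (∀ v ∈ BB, ∀ N ∈ Tx x, 13 / 50 - 2 * e ≤
              (∑ j : Fin m, if (∃ l : Fin s, (N + v (j, l)).Prime) then lam j else 0) →
            (∀ j : Fin m, ∃ l : Fin s, Q (N + v (j, l))) →
            ∃ i : Fin (k + 1) → Fin m × Fin s, Function.Injective i ∧ v ∘ i ∈ G N) →
          c * x * ((L : ℝ) / Real.log x) ^ (k + 1) *
              (min 1 ((L : ℝ) / Real.log x)) ^ (m * s - (k + 1)) ≤
            ∑ N ∈ (Tx x).filter (fun N : ℕ => (N : ℝ) ≤ T * x), ((G N).card : ℝ) := by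
  obtain ⟨s, a, hs, ha, ha1, H⟩ := one_boxL Q hU e he he1 m (by omega)
  refine ⟨s, a, hs, ha, ha1, fun A δ hA hδ => ?_⟩
  obtain ⟨c0, hc0, hob⟩ := H A hA
  suffices hs : ∃ c T : ℝ, 0 < c ∧ 1 ≤ T ∧
      ∀ᶠ x : ℝ in atTop, ∀ L : ℕ, 1 ≤ L → (L : ℝ) ≤ Real.log x ^ A → ∀ lam ∈ Λ,
        Cl Q e m s k a δ c T x L lam by
    obtain ⟨c, T, hc, hT, hev⟩ := hs
    exact ⟨c, T, hc, hT, hev⟩
  induction Λ using Finset.induction_on with
  | empty =>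
    exact ⟨1, 1, one_pos, le_rfl, Eventually.of_forall fun x L _ _ lam hlam => by
      simp at hlam⟩
  | insert lam Λ hnot ih =>
    obtain ⟨c1, T1, hc1, hT1, hev1⟩ := ih fun l hl => hΛ l (mem_insert_of_mem hl)
    obtain ⟨hl0, hl1⟩ := hΛ lam (mem_insert_self _ _)
    obtain ⟨c2, T2, th, hc2, hT2, -, hev2⟩ := main_G m s k hs hm a ha ha1 (EvL Q e lam) A δ c0 hδ hc0
      (by
        filter_upwards [hob] with x hx L hL hLA v hv hadm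
        exact hx L hL hLA v hv hadm lam hl0 hl1)
    refine ⟨min c1 c2, max T1 T2, lt_min hc1 hc2, hT1.trans (le_max_left _ _), ?_⟩
    filter_upwards [hev1, hev2, eventually_ge_atTop 1] with x hx1 hx2 hx0 L hL hLA l hl
    rcases mem_insert.1 hl with rfl | hl
    · refine cl_mono (min_le_right _ _) (le_max_right T1 T2) hx0 ?_
      intro BB hBB hcard G hG1 hG2
      exact hx2 L hL hLA False (fun h => h.elim) BB hBB hcard G hG1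
        fun v hv N hN _ hE _ => hG2 v hv N hN hE.1 hE.2
    · exact cl_mono (min_le_left _ _) (le_max_left T1 T2) hx0 (hx1 L hL hLA l hl)

open Classical in
/-- the same for `P_2` numbers, without hypothesis -/
theorem main_BL2 (e : ℝ) (he : 0 < e) (he1 : e ≤ 1 / 100) (m k : ℕ)
    (hm : k + 1 ≤ m) (Λ : Finset (Fin m → ℝ))
    (hΛ : ∀ lam ∈ Λ, (∀ j, 0 ≤ lam j) ∧ ∑ j, lam j = 1) :
    ∃ (s : ℕ) (a : ℝ), 1 ≤ s ∧ 0 < a ∧ a ≤ 1 / 20 ∧ ∀ A δ : ℝ, 0 < A → 0 < δ →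
      ∃ c T : ℝ, 0 < c ∧ 1 ≤ T ∧
      ∀ᶠ x : ℝ in atTop, ∀ L : ℕ, 1 ≤ L → (L : ℝ) ≤ Real.log x ^ A → ∀ lam ∈ Λ,
        ∀ BB : Finset (Fin m × Fin s → ℕ), (∀ v ∈ BB, v ∈ IJ (Fin m × Fin s) L ∧ Admv v) →
          δ * (L : ℝ) ^ (m * s) ≤ BB.card →
        ∀ G : ℕ → Finset (Fin (k + 1) → ℕ),
          (∀ N ∈ Tx x, ∀ r ∈ G N, ∀ i, r i ≤ L ∧ Rgh (x ^ a) (N + r i)) →
          (∀ v ∈ BB, ∀ N ∈ Tx x, 13 / 50 - 2 * e ≤
              (∑ j : Fin m, if (∃ l : Fin s, (N + v (j, l)).Prime) then lam j else 0) →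
            (∀ j : Fin m, ∃ l : Fin s, Pool.Agent.H21.CP.Q2 (N + v (j, l))) →
            ∃ i : Fin (k + 1) → Fin m × Fin s, Function.Injective i ∧ v ∘ i ∈ G N) →
          c * x * ((L : ℝ) / Real.log x) ^ (k + 1) *
              (min 1 ((L : ℝ) / Real.log x)) ^ (m * s - (k + 1)) ≤
            ∑ N ∈ (Tx x).filter (fun N : ℕ => (N : ℝ) ≤ T * x), ((G N).card : ℝ) :=
  main_BL Pool.Agent.H21.CP.Q2 blkQ e he he1 m k hm Λ hΛ

end Pool.Agent.H92.UM
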