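import Pool.Agent.H92.MM.Sqb
import Pool.Agent.H92.UM.Bd
import Pool.Agent.H95.UL.Nrm

/-!
# MP_8923e7_nt, Theorem G: removal of the numbers that are not squarefree, uniformly (from H92/MM/Sq, Sqb)
-/

set_option autoImplicit false

namespace Pool.Agent.H92.UM

open Finset Filter Pool.Agent.H21.MT Pool.Agent.H92.MM Pool.Agent.H96.UL

theorem sq_evU (B : ℝ) : ∀ᶠ x : ℝ in atTop, ∀ h : ℕ, (h : ℝ) ≤ Real.log x ^ B →
    x ^ (1 + 1 / 2000 : ℝ) + h ≤ x ^ (1001 / 1000 : ℝ) := by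
  have h1 : ∀ᶠ x : ℝ in atTop, (2 : ℝ) ≤ x ^ (1 / 2000 : ℝ) :=
    (tendsto_rpow_atTop (by norm_num)).eventually_ge_atTop _
  filter_upwards [h1, eventually_ge_atTop (1 : ℝ), log_lt B 1 one_pos] with x h1 hx hl h hhB
  rw [Real.rpow_one] at hl
  have hh : (h : ℝ) ≤ x := hhB.trans hl.le
  have hx0 : 0 < x := by linarith
  have h2 : x ^ (1001 / 1000 : ℝ) = x ^ (1 + 1 / 2000 : ℝ) * x ^ (1 / 2000 : ℝ) := by
    rw [← Real.rpow_add hx0]
    norm_num
  have h3 : x ≤ x ^ (1 + 1 / 2000 : ℝ) := by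
    have h := Real.rpow_le_rpow_of_exponent_le hx (show (1 : ℝ) ≤ 1 + 1 / 2000 by norm_num)
    rwa [Real.rpow_one] at h
  rw [h2]
  nlinarith

private theorem sq_mem {x : ℝ} (hx : 0 ≤ x) {N : ℕ} (hN : N ∈ Tx x) :
    0 < N ∧ (N : ℝ) ≤ x ^ (1 + 1 / 2000 : ℝ) := by
  unfold Tx at hN
  obtain ⟨h1, h2⟩ := mem_Ioc.1 hN
  exact ⟨by omega, (Nat.le_floor_iff (Real.rpow_nonneg hx _)).1 h2⟩

private theorem sq_mass_le {x : ℝ} (hx : 1 ≤ x) : mass x ≤ Pool.Agent.H21.SH.XG x := by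
  unfold mass Pool.Agent.H21.SH.XG
  apply sum_le_sum_of_subset_of_nonneg
  · unfold Tx Win
    apply Ioc_subset_Ioc le_rfl
    apply Nat.floor_le_floor
    have h := Real.rpow_le_rpow_of_exponent_le hx (show (1 + 1 / 2000 : ℝ) ≤ (2 : ℕ) by norm_num)
    rwa [Real.rpow_natCast] at h
  · intro N _ _
    exact (gw_pos x N).le

theorem sq_massU (a0 : ℝ) (ha0 : 0 < a0) (ha1 : a0 ≤ 1 / 20) (B : ℝ) : ∀ᶠ x : ℝ in atTop,
    ∀ h : ℕ, (h : ℝ) ≤ Real.log x ^ B → ∀ S ⊆ Tx x, (∀ N ∈ S, Sqb x a0 (N + h)) → ∑ N ∈ S, gw x N ≤ x ^ (1 - a0 / 2) := by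
  classical
  have e1 : ∀ᶠ x : ℝ in atTop, (244 : ℝ) ≤ x ^ (a0 / 2) :=
    (tendsto_rpow_atTop (by positivity)).eventually_ge_atTop _
  filter_upwards [sq_evU B, e1, eventually_ge_atTop (1 : ℝ), Pool.Agent.H95.L1.ud_win,
    Pool.Agent.H21.SH.gw_massx] with x hx1' hx2 hx hud hmass h hh S hS hSq
  have hx1 := hx1' h hh
  have hx0 : 0 < x := by linarith
  set k : ℕ := ⌈x ^ a0⌉₊ - 1 with hk
  set n : ℕ := ⌊x ^ (3 / 5 : ℝ)⌋₊ + 1 with hn
  have hy1 : 1 ≤ x ^ a0 := Real.one_le_rpow hx ha0.le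
  have hceil : 1 ≤ ⌈x ^ a0⌉₊ := Nat.one_le_ceil_iff.2 (by linarith)
  have hk1 : k + 1 = ⌈x ^ a0⌉₊ := by omega
  have hM0 : 0 ≤ mass x := by
    unfold mass
    exact sum_nonneg fun N _ => (gw_pos x N).le
  have hM : mass x ≤ 120 * x := (sq_mass_le hx).trans hmass.2
  have step1 : ∀ N ∈ S, gw x N ≤ ∑ p ∈ Ioo k n,
      (if N % p ^ 2 = (h * (p ^ 2 - 1)) % p ^ 2 then gw x N else 0) := by
    intro N hN
    obtain ⟨p, hp, hpx, hpd⟩ := hSq N hN
    obtain ⟨hN0, hN1⟩ := sq_mem hx0.le (hS hN)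
    have hpk : k < p := by
      have h1 : ⌈x ^ a0⌉₊ ≤ p := Nat.ceil_le.2 hpx
      omega
    have hpn : p < n := by
      have h1 : p ^ 2 ≤ N + h := Nat.le_of_dvd (by omega) hpd
      have h2 : ((p : ℝ)) ^ 2 ≤ x ^ (1001 / 1000 : ℝ) := by
        have h3 : ((p : ℝ)) ^ 2 ≤ N + h := by exact_mod_cast h1
        linarith
      have h4 : x ^ (1001 / 1000 : ℝ) ≤ (x ^ (3 / 5 : ℝ)) ^ 2 := by
        rw [← Real.rpow_natCast (x ^ (3 / 5 : ℝ)) 2, ← Real.rpow_mul hx0.le]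
        exact Real.rpow_le_rpow_of_exponent_le hx (by norm_num)
      have h5 : (p : ℝ) ≤ x ^ (3 / 5 : ℝ) :=
        (pow_le_pow_iff_left₀ (Nat.cast_nonneg p) (Real.rpow_nonneg hx0.le _) two_ne_zero).1
          (h2.trans h4)
      have h6 : p ≤ ⌊x ^ (3 / 5 : ℝ)⌋₊ := Nat.le_floor h5
      omega
    have hcong : N % p ^ 2 = (h * (p ^ 2 - 1)) % p ^ 2 := by
      have hp2 : 1 ≤ p ^ 2 := Nat.one_le_pow _ _ hp.pos
      have h1 : h * (p ^ 2 - 1) + h = h * p ^ 2 := by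
        have h2 : p ^ 2 - 1 + 1 = p ^ 2 := Nat.sub_add_cancel hp2
        calc h * (p ^ 2 - 1) + h = h * (p ^ 2 - 1 + 1) := by ring
          _ = h * p ^ 2 := by rw [h2]
      have h3 : N + h ≡ h * (p ^ 2 - 1) + h [MOD p ^ 2] := by
        rw [h1]
        exact (Nat.modEq_zero_iff_dvd.2 hpd).trans (Nat.modEq_zero_iff_dvd.2 (dvd_mul_left _ _)).symm
      exact Nat.ModEq.add_right_cancel' h h3
    calc gw x N = (if N % p ^ 2 = (h * (p ^ 2 - 1)) % p ^ 2 then gw x N else 0) := by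
          rw [if_pos hcong]
      _ ≤ _ := single_le_sum (f := fun p : ℕ =>
          (if N % p ^ 2 = (h * (p ^ 2 - 1)) % p ^ 2 then gw x N else 0)) (fun q _ => by
            split_ifs
            · exact (gw_pos x N).le
            · exact le_rfl) (mem_Ioo.2 ⟨hpk, hpn⟩)
  have step2 : ∑ N ∈ S, gw x N ≤ ∑ p ∈ Ioo k n, (mass x / ((p : ℝ) ^ 2) + 4) := by
    calc ∑ N ∈ S, gw x N ≤ ∑ N ∈ S, ∑ p ∈ Ioo k n,
          (if N % p ^ 2 = (h * (p ^ 2 - 1)) % p ^ 2 then gw x N else 0) := sum_le_sum step1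
      _ ≤ ∑ N ∈ Tx x, ∑ p ∈ Ioo k n,
          (if N % p ^ 2 = (h * (p ^ 2 - 1)) % p ^ 2 then gw x N else 0) := by
          apply sum_le_sum_of_subset_of_nonneg hS
          intro N _ _
          apply sum_nonneg
          intro p _
          split_ifs
          · exact (gw_pos x N).le
          · exact le_rfl
      _ = ∑ p ∈ Ioo k n, ∑ N ∈ (Tx x).filter (fun N => N % p ^ 2 = (h * (p ^ 2 - 1)) % p ^ 2),
          gw x N := by
          rw [sum_comm]
          exact sum_congr rfl fun p _ => (sum_filter _ _).symm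
      _ ≤ _ := by
          apply sum_le_sum
          intro p hp
          have hp0 : 0 < p := by
            have := (mem_Ioo.1 hp).1
            omega
          have h1 := hud (p ^ 2) (h * (p ^ 2 - 1)) (by positivity)
          have h2 := (abs_le.1 h1).2
          push_cast at h2
          linarith
  have step3 : ∑ p ∈ Ioo k n, (mass x / ((p : ℝ) ^ 2) + 4) ≤
      mass x * (2 / (k + 1)) + 4 * x ^ (3 / 5 : ℝ) := by
    rw [sum_add_distrib]
    apply add_le_add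
    · have h1 := sum_Ioo_inv_sq_le (α := ℝ) k n
      calc ∑ p ∈ Ioo k n, mass x / ((p : ℝ) ^ 2) = mass x * ∑ p ∈ Ioo k n, ((p : ℝ) ^ 2)⁻¹ := by
            rw [mul_sum]
            exact sum_congr rfl fun p _ => div_eq_mul_inv _ _
        _ ≤ mass x * (2 / (k + 1)) := mul_le_mul_of_nonneg_left h1 hM0
    · rw [sum_const, Nat.card_Ioo, nsmul_eq_mul]
      have h1 : n - k - 1 ≤ ⌊x ^ (3 / 5 : ℝ)⌋₊ := by omega
      have h2 : ((n - k - 1 : ℕ) : ℝ) ≤ x ^ (3 / 5 : ℝ) :=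
        (Nat.cast_le.2 h1).trans (Nat.floor_le (Real.rpow_nonneg hx0.le _))
      linarith
  have step4 : mass x * (2 / (k + 1)) ≤ 240 * x ^ (1 - a0) := by
    have h1 : ((k : ℝ) + 1) = (⌈x ^ a0⌉₊ : ℝ) := by
      rw [← hk1]
      push_cast
      ring
    have h2 : x ^ a0 ≤ (k : ℝ) + 1 := by
      rw [h1]
      exact Nat.le_ceil _
    have h3 : 2 / ((k : ℝ) + 1) ≤ 2 / x ^ a0 :=
      div_le_div_of_nonneg_left (by norm_num) (by linarith) h2
    have h4 : x ^ (1 - a0) = x / x ^ a0 := by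
      rw [Real.rpow_sub hx0, Real.rpow_one]
    rw [h4]
    calc mass x * (2 / (k + 1)) ≤ (120 * x) * (2 / x ^ a0) :=
          mul_le_mul hM h3 (by positivity) (by positivity)
      _ = 240 * (x / x ^ a0) := by ring
  have step5 : x ^ (3 / 5 : ℝ) ≤ x ^ (1 - a0) :=
    Real.rpow_le_rpow_of_exponent_le hx (by linarith)
  have step6 : 244 * x ^ (1 - a0) ≤ x ^ (1 - a0 / 2) := by
    have h1 : x ^ (1 - a0 / 2) = x ^ (a0 / 2) * x ^ (1 - a0) := by
      rw [← Real.rpow_add hx0]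
      congr 1
      ring
    rw [h1]
    exact mul_le_mul_of_nonneg_right hx2 (Real.rpow_nonneg hx0.le _)
  linarith

theorem sm_boundU {ι : Type} [Fintype ι] (a η : ℝ) (ha : 0 < a) (L : ℕ) (B : ℝ) :
    ∀ᶠ x : ℝ in atTop, ∀ h : ι → ℕ, (∀ j, (h j : ℝ) ≤ Real.log x ^ B) → ∀ A : ι → Fin L → ℕ, sl a L A ≤ η → ∀ N ∈ Tx x,
      |sm x a L h A N| ≤ (4 * Real.log x) ^ (η / a) := by
  filter_upwards [sq_evU B, eventually_ge_atTop (3 : ℝ)] with x hx1' hx h hh A hA N hN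
  have hx1 : ∀ j, x ^ (1 + 1 / 2000 : ℝ) + h j ≤ x ^ (1001 / 1000 : ℝ) := fun j => hx1' (h j) (hh j)
  have hx0 : 0 < x := by linarith
  have hlog1 : 1 ≤ Real.log x := by
    rw [Real.le_log_iff_exp_le hx0]
    linarith [Real.exp_one_lt_d9]
  obtain ⟨hN0, hN1⟩ := sq_mem hx0.le hN
  have hmc : ∀ (j : ι) (i : ℕ), (mc x a i (N + h j) : ℝ) ≤ 4 * Real.log x := by
    intro j i
    set n : ℕ := N + h j with hn
    have hn0 : 0 < n := by omega
    have h1 : mc x a i n ≤ n.primeFactors.card := by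
      unfold mc
      apply card_le_card
      intro p hp
      rw [mem_filter] at hp
      unfold rg at hp
      rw [mem_filter] at hp
      exact Nat.mem_primeFactors.2 ⟨hp.1.2.1, hp.2, hn0.ne'⟩
    have h2 : 2 ^ n.primeFactors.card ≤ n := by
      calc 2 ^ n.primeFactors.card = ∏ _p ∈ n.primeFactors, 2 := by rw [prod_const]
        _ ≤ ∏ p ∈ n.primeFactors, p :=
            prod_le_prod' fun p hp => (Nat.prime_of_mem_primeFactors hp).two_le
        _ ≤ n := Nat.le_of_dvd hn0 (Nat.prod_primeFactors_dvd n)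
    have h3 : (n : ℝ) ≤ x ^ (1001 / 1000 : ℝ) := by
      rw [hn]
      push_cast
      linarith [hx1 j]
    have h4 : (2 : ℝ) ^ n.primeFactors.card ≤ x ^ (1001 / 1000 : ℝ) := by
      have h5 : ((2 : ℝ)) ^ n.primeFactors.card ≤ n := by exact_mod_cast h2
      linarith
    have h5 : (n.primeFactors.card : ℝ) * Real.log 2 ≤ 1001 / 1000 * Real.log x := by
      have h6 := Real.log_le_log (by positivity) h4
      rwa [Real.log_pow, Real.log_rpow hx0] at h6
    have h6 := Real.log_two_gt_d9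
    have h7 : (mc x a i n : ℝ) ≤ (n.primeFactors.card : ℝ) := by exact_mod_cast h1
    have h8 : (0 : ℝ) ≤ (n.primeFactors.card : ℝ) := Nat.cast_nonneg _
    nlinarith
  have hB : 1 ≤ 4 * Real.log x := by linarith
  have hsm0 : 0 ≤ sm x a L h A N := by
    unfold sm
    exact prod_nonneg fun j _ => prod_nonneg fun i _ => Nat.cast_nonneg _
  rw [abs_of_nonneg hsm0]
  have h1 : sm x a L h A N ≤ ∏ j, ∏ i : Fin L, (4 * Real.log x) ^ (A j i) := by
    unfold sm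
    apply Finset.prod_le_prod
    · intro j _
      exact prod_nonneg fun i _ => Nat.cast_nonneg _
    · intro j _
      apply Finset.prod_le_prod
      · intro i _
        exact Nat.cast_nonneg _
      · intro i _
        calc ((mc x a i (N + h j)).choose (A j i) : ℝ) ≤ ((mc x a i (N + h j)) ^ (A j i) : ℕ) :=
              Nat.cast_le.2 (Nat.choose_le_pow _ _)
          _ = (mc x a i (N + h j) : ℝ) ^ (A j i) := by push_cast; rfl
          _ ≤ (4 * Real.log x) ^ (A j i) := pow_le_pow_left₀ (Nat.cast_nonneg _) (hmc j i) _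
  have h2 : ∏ j, ∏ i : Fin L, (4 * Real.log x) ^ (A j i) =
      (4 * Real.log x) ^ (∑ j, ∑ i : Fin L, A j i) := by
    rw [← prod_pow_eq_pow_sum]
    exact prod_congr rfl fun j _ => prod_pow_eq_pow_sum _ _ _
  rw [h2] at h1
  refine h1.trans ?_
  rw [← Real.rpow_natCast]
  apply Real.rpow_le_rpow_of_exponent_le hB
  rw [le_div_iff₀ ha]
  refine le_trans ?_ hA
  unfold sl
  push_cast
  rw [sum_mul]
  apply sum_le_sum
  intro j _
  rw [sum_mul]
  apply sum_le_sum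
  intro i _
  have h3 : (1 : ℝ) ≤ 2 ^ ((i : ℕ) + 1) := one_le_pow₀ (by norm_num)
  have h4 : (0 : ℝ) ≤ (A j i : ℝ) := Nat.cast_nonneg _
  apply mul_le_mul_of_nonneg_left _ h4
  nlinarith

private theorem sqb_small (s c K δ a0 : ℝ) (ha0 : 0 < a0) (hc : 0 < c) (hK : 0 ≤ K)
    (hδ : 0 < δ) : ∀ᶠ x : ℝ in atTop,
      (4 * Real.log x) ^ s * c * (K * x ^ (1 - a0 / 2)) ≤ δ * x ^ (1 - a0 / 4) := by
  have hcp : 0 < δ / ((4 : ℝ) ^ s * c * (K + 1)) := by positivity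
  have h1 := (isLittleO_log_rpow_rpow_atTop s (show 0 < a0 / 4 by linarith)).bound hcp
  filter_upwards [h1, eventually_ge_atTop (1 : ℝ)] with x hx hx1
  have hx0 : 0 < x := by linarith
  have h2 : 0 ≤ Real.log x := Real.log_nonneg hx1
  rw [Real.norm_of_nonneg (Real.rpow_nonneg h2 _),
    Real.norm_of_nonneg (Real.rpow_nonneg hx0.le _)] at hx
  have h3 : x ^ (1 - a0 / 4) = x ^ (1 - a0 / 2) * x ^ (a0 / 4) := by
    rw [← Real.rpow_add hx0]
    congr 1
    ring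
  rw [Real.mul_rpow (by norm_num) h2, h3]
  have h4 : 0 < x ^ (1 - a0 / 2) := Real.rpow_pos_of_pos hx0 _
  have h5 : 0 < (4 : ℝ) ^ s * c * (K + 1) := by positivity
  have h6 : (4 : ℝ) ^ s * c * (K + 1) * Real.log x ^ s ≤ δ * x ^ (a0 / 4) := by
    calc (4 : ℝ) ^ s * c * (K + 1) * Real.log x ^ s ≤
        (4 : ℝ) ^ s * c * (K + 1) * (δ / ((4 : ℝ) ^ s * c * (K + 1)) * x ^ (a0 / 4)) :=
          mul_le_mul_of_nonneg_left hx h5.le
      _ = δ * x ^ (a0 / 4) := by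
        field_simp
  have h7 : (4 : ℝ) ^ s * c * K * Real.log x ^ s ≤ (4 : ℝ) ^ s * c * (K + 1) * Real.log x ^ s := by
    apply mul_le_mul_of_nonneg_right _ (Real.rpow_nonneg h2 _)
    apply mul_le_mul_of_nonneg_left _ (by positivity)
    linarith
  calc (4 : ℝ) ^ s * Real.log x ^ s * c * (K * x ^ (1 - a0 / 2)) =
      (4 : ℝ) ^ s * c * K * Real.log x ^ s * x ^ (1 - a0 / 2) := by ring
    _ ≤ δ * x ^ (a0 / 4) * x ^ (1 - a0 / 2) :=
      mul_le_mul_of_nonneg_right (h7.trans h6) h4.le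
    _ = δ * (x ^ (1 - a0 / 2) * x ^ (a0 / 4)) := by ring

open Classical in
private theorem sqb_key {ι : Type} [Fintype ι] (x a : ℝ) (L : ℕ) (h : ι → ℕ) (W b : ℕ)
    (A : ι → Fin L → ℕ) (Φ Φ' : ℕ → ℝ) (Bd : ℕ → Prop) [DecidablePred Bd] (c M Bm : ℝ)
    (hc : ∀ N ∈ Tx x, ¬ Bd N → Φ N = Φ' N) (hc' : ∀ N ∈ Tx x, |Φ N - Φ' N| ≤ c)
    (hsm : ∀ N ∈ Tx x, |sm x a L h A N| ≤ M) (hmass : ∑ N ∈ (Tx x).filter Bd, gw x N ≤ Bm)
    (hnm : 0 < nm x a W (Fintype.card ι)) (hM : 0 ≤ M) (hc0 : 0 ≤ c) :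
    |Av x a h W b (fun N => sm x a L h A N * Φ N) -
      Av x a h W b (fun N => sm x a L h A N * Φ' N)| ≤
      M * c * Bm / nm x a W (Fintype.card ι) := by
  unfold Av
  rw [← sub_div, abs_div, abs_of_pos hnm]
  apply div_le_div_of_nonneg_right _ hnm.le
  rw [← sum_sub_distrib]
  refine (abs_sum_le_sum_abs _ _).trans ?_
  have h1 : ∀ N ∈ (Tx x).filter (fun N => Adm x a h W b N),
      |gw x N * (sm x a L h A N * Φ N) - gw x N * (sm x a L h A N * Φ' N)| ≤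
        M * c * (if Bd N then gw x N else 0) := by
    intro N hN
    have hT := (mem_filter.1 hN).1
    have h2 : gw x N * (sm x a L h A N * Φ N) - gw x N * (sm x a L h A N * Φ' N) =
        gw x N * sm x a L h A N * (Φ N - Φ' N) := by ring
    rw [h2]
    split_ifs with hB
    · rw [abs_mul, abs_mul, abs_of_pos (gw_pos x N)]
      have h3 := mul_le_mul (hsm N hT) (hc' N hT) (abs_nonneg _) hM
      have h4 := mul_le_mul_of_nonneg_left h3 (gw_pos x N).le
      linarith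
    · rw [hc N hT hB, sub_self, mul_zero, abs_zero, mul_zero]
  refine (sum_le_sum h1).trans ?_
  rw [← mul_sum]
  apply mul_le_mul_of_nonneg_left _ (by positivity)
  refine le_trans ?_ hmass
  have h6 : ∑ N ∈ (Tx x).filter Bd, gw x N = ∑ N ∈ Tx x, if Bd N then gw x N else 0 :=
    sum_filter _ _
  rw [h6]
  have h5 : ∀ N ∈ Tx x, N ∉ (Tx x).filter (fun N => Adm x a h W b N) →
      (0 : ℝ) ≤ (if Bd N then gw x N else 0) := by
    intro N _ _
    split_ifs
    · exact (gw_pos x N).le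
    · exact le_refl 0
  exact sum_le_sum_of_subset_of_nonneg (filter_subset _ _) h5

open Classical in
theorem sq_lawU (η Θ a0 C : ℝ) (hη : 0 < η) (hΘ : 0 < Θ) (ha0 : 0 < a0) (ha1 : a0 ≤ 1 / 20)
    (F : ℝ → ℕ → ℝ) (EF : ℝ → ℝ) (hF : PairLawU η (Θ + 1) a0 F EF)
    (hbd : ∀ᶠ x : ℝ in atTop, ∀ n : ℕ, 0 < n → (n : ℝ) ≤ x ^ (1 + 1 / 1000 : ℝ) → |F x n| ≤ C) :
    PairLawU η Θ a0 (fun x n => if Sqb x a0 n then 0 else F x n) EF := by
  obtain ⟨c0, hc0, hLaw⟩ := hF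
  refine ⟨c0, hc0, ?_⟩
  intro ι _ _ _ a L ha haL hKa B
  obtain ⟨w0, hw0⟩ := hLaw ι a L ha haL hKa B
  refine ⟨max w0 (2 * Fintype.card ι), fun w hw => ?_⟩
  have hw1 : w0 ≤ w := (le_max_left _ _).trans hw
  have hw2 : 2 * Fintype.card ι ≤ w := (le_max_right _ _).trans hw
  have ha1' : a ≤ 1 := by
    have h1 : (1 : ℝ) ≤ 2 ^ L := one_le_pow₀ (by norm_num)
    nlinarith
  set K : ℝ := (Fintype.card ι : ℝ) with hKdef
  have hK0 : 0 ≤ K := Nat.cast_nonneg _
  set C' : ℝ := max C 1 with hC'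
  have hC1 : 1 ≤ C' := le_max_right _ _
  have hC2 : C ≤ C' := le_max_left _ _
  set δ : ℝ := Real.exp (-(Θ / a)) - Real.exp (-((Θ + 1) / a)) with hδ
  have hδ0 : 0 < δ := by
    have h1 : Real.exp (-((Θ + 1) / a)) < Real.exp (-(Θ / a)) := by
      apply Real.exp_lt_exp.2
      apply neg_lt_neg
      exact div_lt_div_of_pos_right (by linarith) ha
    linarith
  have hsmall : ∀ᶠ x : ℝ in atTop,
      (4 * Real.log x) ^ (η / a) * (2 * C' ^ 2) * (K * x ^ (1 - a0 / 2)) ≤ δ * x ^ (1 - a0 / 4) :=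
    sqb_small (η / a) (2 * C' ^ 2) K δ a0 ha0 (by positivity) hK0 hδ0
  filter_upwards [hw0 w hw1, hbd, sq_massU a0 ha0 ha1 B, sq_evU B, hsmall, sm_boundU (ι := ι) a η ha L B,
    Pool.Agent.H95.UL.nm_geU (Fintype.card ι) w hw2 B a (a0 / 4) ha ha1' (by linarith),
    eventually_ge_atTop (1 : ℝ)] with x hP hbx hmx' hrx' hsx hsm' hnm' hx1
  intro h W b hok haL0
  obtain ⟨hP1, hP2⟩ := hP h W b hok haL0
  have hmx : ∀ j : ι, ∀ S ⊆ Tx x, (∀ N ∈ S, Sqb x a0 (N + h j)) → ∑ N ∈ S, gw x N ≤ x ^ (1 - a0 / 2) :=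
    fun j => hmx' (h j) (hok.hh j)
  have hrx : ∀ j : ι, x ^ (1 + 1 / 2000 : ℝ) + h j ≤ x ^ (1 + 1 / 1000 : ℝ) := by
    intro j
    have h1 := hrx' (h j) (hok.hh j)
    have h2 : (1001 / 1000 : ℝ) = 1 + 1 / 1000 := by norm_num
    rwa [h2] at h1
  have hsm := hsm' h hok.hh
  have hnm := hnm' W hok.W_pos hok.pw hok.wle
  have hx0 : 0 < x := by linarith
  have hnm0 : 0 < nm x a W (Fintype.card ι) :=
    lt_of_lt_of_le (Real.rpow_pos_of_pos hx0 _) hnm
  have hlog0 : 0 ≤ Real.log x := Real.log_nonneg hx1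
  have hbad : ∑ N ∈ (Tx x).filter (fun N => ∃ j, Sqb x a0 (N + h j)), gw x N ≤
      K * x ^ (1 - a0 / 2) := by
    have h1 : ∑ N ∈ (Tx x).filter (fun N => ∃ j, Sqb x a0 (N + h j)), gw x N ≤
        ∑ N ∈ Tx x, ∑ j : ι, (if Sqb x a0 (N + h j) then gw x N else 0) := by
      rw [sum_filter]
      refine sum_le_sum fun N _ => ?_
      split_ifs with hN
      · obtain ⟨j, hj⟩ := hN
        have h2 : (if Sqb x a0 (N + h j) then gw x N else 0) ≤
            ∑ j : ι, (if Sqb x a0 (N + h j) then gw x N else 0) :=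
          single_le_sum (f := fun j : ι => if Sqb x a0 (N + h j) then gw x N else 0)
            (fun i _ => by
              split_ifs
              · exact (gw_pos x N).le
              · exact le_refl 0) (mem_univ j)
        rwa [if_pos hj] at h2
      · refine sum_nonneg fun i _ => ?_
        split_ifs
        · exact (gw_pos x N).le
        · exact le_refl 0
    refine h1.trans ?_
    rw [sum_comm]
    have h3 : ∀ j : ι, ∑ N ∈ Tx x, (if Sqb x a0 (N + h j) then gw x N else 0) ≤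
        x ^ (1 - a0 / 2) := by
      intro j
      rw [← sum_filter]
      exact hmx j _ (filter_subset _ _) fun N hN => (mem_filter.1 hN).2
    refine (sum_le_sum fun j _ => h3 j).trans ?_
    rw [sum_const, card_univ, nsmul_eq_mul]
  -- the bound of F on the window
  have hFb : ∀ N ∈ Tx x, ∀ j : ι, |F x (N + h j)| ≤ C' := by
    intro N hN j
    obtain ⟨hN1, hN2⟩ := mem_Ioc.1 hN
    have h1 : 0 < N + h j := by omega
    have h2 : ((N + h j : ℕ) : ℝ) ≤ x ^ (1 + 1 / 1000 : ℝ) := by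
      push_cast
      have h3 : (N : ℝ) ≤ x ^ (1 + 1 / 2000 : ℝ) :=
        (Nat.le_floor_iff (Real.rpow_nonneg hx0.le _)).1 hN2
      have h4 := hrx j
      linarith
    exact (hbx _ h1 h2).trans hC2
  have hfin : ∀ A : ι → Fin L → ℕ, sl a L A ≤ η → ∀ Φ Φ' : ℕ → ℝ,
      (∀ N ∈ Tx x, ¬ (∃ j, Sqb x a0 (N + h j)) → Φ N = Φ' N) →
      (∀ N ∈ Tx x, |Φ N - Φ' N| ≤ 2 * C' ^ 2) → ∀ E : ℝ,
      |Av x a h W b (fun N => sm x a L h A N * Φ N) - E| ≤
        Real.exp (-((Θ + 1) / a)) →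
      |Av x a h W b (fun N => sm x a L h A N * Φ' N) - E| ≤
        Real.exp (-(Θ / a)) := by
    intro A hA Φ Φ' h1 h2 E h3
    have h4 := sqb_key x a L h W b A Φ Φ' (fun N => ∃ j, Sqb x a0 (N + h j))
      (2 * C' ^ 2) ((4 * Real.log x) ^ (η / a)) (K * x ^ (1 - a0 / 2)) h1 h2 (hsm A hA) hbad
      hnm0 (Real.rpow_nonneg (by positivity) _) (by positivity)
    have h5 : (4 * Real.log x) ^ (η / a) * (2 * C' ^ 2) * (K * x ^ (1 - a0 / 2)) /
        nm x a W (Fintype.card ι) ≤ δ := by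
      rw [div_le_iff₀ hnm0]
      exact hsx.trans (mul_le_mul_of_nonneg_left hnm hδ0.le)
    have h6 := abs_sub_comm (Av x a h W b (fun N => sm x a L h A N * Φ N))
      (Av x a h W b (fun N => sm x a L h A N * Φ' N))
    have h7 := abs_add_le (Av x a h W b (fun N => sm x a L h A N * Φ' N) -
      Av x a h W b (fun N => sm x a L h A N * Φ N))
      (Av x a h W b (fun N => sm x a L h A N * Φ N) - E)
    rw [sub_add_sub_cancel] at h7
    linarith
  have hC0 : 0 ≤ C' := by linarith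
  refine ⟨fun j A hA => ?_, fun j j' hjj A hA => ?_⟩
  · refine hfin A hA _ _ (fun N _ hN => ?_) (fun N hN => ?_) _ (hP1 j A hA)
    · have h1 : ¬ Sqb x a0 (N + h j) := fun h => hN ⟨j, h⟩
      simp only [h1, if_false]
    · have h1 := hFb N hN j
      have h2 : C' ≤ 2 * C' ^ 2 := by nlinarith
      split_ifs
      · rw [sub_zero]
        linarith
      · rw [sub_self, abs_zero]
        positivity
  · refine hfin A hA _ _ (fun N _ hN => ?_) (fun N hN => ?_) _ (hP2 j j' hjj A hA)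
    · have h1 : ¬ Sqb x a0 (N + h j) := fun h => hN ⟨j, h⟩
      have h2 : ¬ Sqb x a0 (N + h j') := fun h => hN ⟨j', h⟩
      simp only [h1, h2, if_false]
    · have h1 := hFb N hN j
      have h2 := hFb N hN j'
      have h3 : |F x (N + h j) * F x (N + h j')| ≤ C' * C' := by
        rw [abs_mul]
        exact mul_le_mul h1 h2 (abs_nonneg _) hC0
      have h4 : (0 : ℝ) ≤ C' * C' := by positivity
      split_ifs
      · rw [zero_mul, sub_zero]
        linarith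
      · rw [zero_mul, sub_zero]
        linarith
      · rw [mul_zero, sub_zero]
        linarith
      · rw [sub_self, abs_zero]
        positivity

end Pool.Agent.H92.UM
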