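import Pool.Agent.H61.UN.Ob
import Pool.Agent.H92.UM.BlkQ

/-!
# [H92 UM OBL] One box with weights on the cells (MP_8923e7_nt, AlmostAllTuples with weights)

As `H92/UM/ObQ`, with the event `EvL Q e lam v N`: the cells which contain a prime have weight at least `13/50 - 2e` (weights
`lam j ≥ 0`, sum `1`), and ALL `m` cells contain a number with the property `Q`. The constants do not depend on `lam`.
-/

namespace Pool.Agent.H92.UM

open Finset Filter Pool.Agent.H21.MT Pool.Agent.H92.MM Pool.Agent.H61.UL Pool.Agent.H61.UN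

open Classical in
/-- the event of a box -/
def EvL (Q : ℕ → Prop) (e : ℝ) {m s : ℕ} (lam : Fin m → ℝ) (v : Fin m × Fin s → ℕ) (N : ℕ) : Prop :=
  13 / 50 - 2 * e ≤ (∑ j : Fin m, if (∃ l : Fin s, (N + v (j, l)).Prime) then lam j else 0) ∧
    ∀ j : Fin m, ∃ l : Fin s, Q (N + v (j, l))

open Classical in
private theorem ob_oneL (Q : ℕ → Prop) {m s : ℕ} (hm : 1 ≤ m) {e e' C2 nmv : ℝ} (he : 0 < e) (he1 : e ≤ 1 / 100)
    (he2 : e' ≤ e / (2 * m))
    (hC2 : 0 < C2) (hnm : 0 < nmv) (lam : Fin m → ℝ) (hl0 : ∀ j, 0 ≤ lam j) (hl1 : ∑ j, lam j = 1)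
    {x a : ℝ} (v : Fin m × Fin s → ℕ) {W b : ℕ} (μ : ℕ → ℝ)
    (h0 : ∀ N, 0 ≤ μ N)
    (h1 : ∀ N, μ N ≠ 0 → N % W = b % W ∧ ∀ i, Rgh (x ^ a) (N + v i))
    (h2 : ∀ N, μ N ≤ C2 * gw x N / nmv) (h3 : ∑ N ∈ Tx x, μ N = 1)
    (h4 : ∀ j : Fin m, 13 / 50 - e' ≤
      ∑ N ∈ (Tx x).filter (fun N => ∃ l : Fin s, (N + v (j, l)).Prime), μ N)
    (h5 : ∀ j : Fin m, 1 - e' ≤
      ∑ N ∈ (Tx x).filter (fun N => ∃ l : Fin s, Q (N + v (j, l))), μ N) :
    e / (2 * C2) * nmv ≤ ∑ N ∈ (Tx x).filter (fun N => (∀ i, Rgh (x ^ a) (N + v i)) ∧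
              EvL Q e lam v N), if N % W = b % W then gw x N else 0 := by
  have hm0 : (0 : ℝ) < m := by exact_mod_cast hm
  obtain ⟨pw, hpw⟩ : ∃ pw : ℕ → ℝ, pw = fun N =>
      ∑ j : Fin m, if (∃ l : Fin s, (N + v (j, l)).Prime) then lam j else 0 := ⟨_, rfl⟩
  have hpw1 : ∀ N, pw N ≤ 1 := by
    intro N
    rw [hpw, ← hl1]
    refine sum_le_sum fun j _ => ?_
    split_ifs
    · exact le_rfl
    · exact hl0 j
  have hdc : 13 / 50 - e' ≤ ∑ N ∈ Tx x, μ N * pw N := by
    calc 13 / 50 - e' = ∑ j : Fin m, lam j * (13 / 50 - e') := by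
          rw [← sum_mul, hl1, one_mul]
      _ ≤ ∑ j : Fin m, lam j *
            ∑ N ∈ (Tx x).filter (fun N => ∃ l : Fin s, (N + v (j, l)).Prime), μ N :=
          sum_le_sum fun j _ => mul_le_mul_of_nonneg_left (h4 j) (hl0 j)
      _ = ∑ j : Fin m, ∑ N ∈ Tx x, μ N *
            (if (∃ l : Fin s, (N + v (j, l)).Prime) then lam j else 0) := by
          refine sum_congr rfl fun j _ => ?_
          rw [sum_filter, mul_sum]
          refine sum_congr rfl fun N _ => ?_
          split_ifs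
          · ring
          · simp
      _ = ∑ N ∈ Tx x, μ N * pw N := by
          rw [sum_comm]
          refine sum_congr rfl fun N _ => ?_
          rw [hpw, mul_sum]
  obtain ⟨E, hE⟩ : ∃ E : Finset ℕ, E = (Tx x).filter (fun N => 13 / 50 - 2 * e ≤ pw N) :=
    ⟨_, rfl⟩
  have hup : ∑ N ∈ Tx x, μ N * pw N ≤ ∑ N ∈ E, μ N + (13 / 50 - 2 * e) := by
    rw [← sum_filter_add_sum_filter_not (Tx x) (fun N => 13 / 50 - 2 * e ≤ pw N),
      ← hE]
    refine add_le_add ?_ ?_
    · refine sum_le_sum fun N _ => ?_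
      calc μ N * pw N ≤ μ N * 1 := mul_le_mul_of_nonneg_left (hpw1 N) (h0 N)
        _ = μ N := mul_one _
    · calc _ ≤ ∑ N ∈ (Tx x).filter (fun N => ¬ 13 / 50 - 2 * e ≤ pw N),
            μ N * (13 / 50 - 2 * e) := by
            refine sum_le_sum fun N hN => ?_
            rw [mem_filter, not_le] at hN
            exact mul_le_mul_of_nonneg_left hN.2.le (h0 N)
        _ ≤ ∑ N ∈ Tx x, μ N * (13 / 50 - 2 * e) := by
            refine sum_le_sum_of_subset_of_nonneg (filter_subset _ _) fun N _ _ => ?_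
            refine mul_nonneg (h0 N) (by linarith)
        _ = _ := by rw [← sum_mul, h3, one_mul]
  have he'e : e' * m ≤ e / 2 := by
    have h6 := mul_le_mul_of_nonneg_right he2 hm0.le
    refine h6.trans (le_of_eq ?_)
    field_simp
  have he'1 : e' ≤ e := by
    refine he2.trans ?_
    rw [div_le_iff₀ (by positivity)]
    have : (1 : ℝ) ≤ m := by exact_mod_cast hm
    nlinarith
  have hEe : e ≤ ∑ N ∈ E, μ N := by
    have h6 := hdc.trans hup
    linarith
  -- the cells without a `Q` number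
  obtain ⟨E2, hE2⟩ : ∃ E2 : Finset ℕ, E2 = E.filter (fun N => ∀ j : Fin m, ∃ l : Fin s, Q (N + v (j, l))) :=
    ⟨_, rfl⟩
  have hETx : E ⊆ Tx x := by rw [hE]; exact filter_subset _ _
  have hbad : ∑ N ∈ E.filter (fun N => ¬ ∀ j : Fin m, ∃ l : Fin s, Q (N + v (j, l))), μ N ≤ e / 2 := by
    have h6 : ∀ j : Fin m, ∑ N ∈ (Tx x).filter (fun N => ¬ ∃ l : Fin s, Q (N + v (j, l))), μ N ≤ e' := by
      intro j
      have h7 := sum_filter_add_sum_filter_not (Tx x) (fun N => ∃ l : Fin s, Q (N + v (j, l))) μ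
      have h8 := h5 j
      rw [h3] at h7
      linarith
    calc _ ≤ ∑ j : Fin m, ∑ N ∈ (Tx x).filter (fun N => ¬ ∃ l : Fin s, Q (N + v (j, l))), μ N := by
          simp_rw [sum_filter]
          rw [sum_comm]
          refine (sum_le_sum (f := fun N => if ¬ ∀ j : Fin m, ∃ l : Fin s, Q (N + v (j, l)) then μ N else 0)
            (g := fun N => ∑ j : Fin m, if ¬ ∃ l : Fin s, Q (N + v (j, l)) then μ N else 0)
            fun N _ => ?_).trans ?_
          · by_cases hN : ∀ j : Fin m, ∃ l : Fin s, Q (N + v (j, l))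
            · rw [if_neg (not_not_intro hN)]
              refine sum_nonneg fun j _ => ?_
              split_ifs <;> first | exact le_rfl | exact h0 N
            · rw [if_pos hN]
              push Not at hN
              obtain ⟨j, hj⟩ := hN
              refine le_trans (le_of_eq ?_) (single_le_sum (f := fun j : Fin m =>
                if ¬ ∃ l : Fin s, Q (N + v (j, l)) then μ N else 0) (fun i _ => ?_) (mem_univ j))
              · rw [if_pos (by push Not; exact hj)]
              · split_ifs <;> first | exact le_rfl | exact h0 N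
          · refine sum_le_sum_of_subset_of_nonneg hETx fun N _ _ => sum_nonneg fun j _ => ?_
            split_ifs <;> first | exact le_rfl | exact h0 N
      _ ≤ ∑ _j : Fin m, e' := sum_le_sum fun j _ => h6 j
      _ = e' * m := by rw [sum_const, card_univ, Fintype.card_fin, nsmul_eq_mul, mul_comm]
      _ ≤ e / 2 := he'e
  have hE2e : e / 2 ≤ ∑ N ∈ E2, μ N := by
    have h6 := sum_filter_add_sum_filter_not E (fun N => ∀ j : Fin m, ∃ l : Fin s, Q (N + v (j, l))) μ
    rw [← hE2] at h6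
    linarith
  have hfin : ∑ N ∈ E2, μ N ≤ C2 / nmv *
      ∑ N ∈ (Tx x).filter (fun N => (∀ i, Rgh (x ^ a) (N + v i)) ∧
              EvL Q e lam v N), if N % W = b % W then gw x N else 0 := by
    rw [mul_sum]
    have h7 : ∑ N ∈ E2, μ N = ∑ N ∈ (Tx x).filter (fun N => (∀ i, Rgh (x ^ a) (N + v i)) ∧
              EvL Q e lam v N), μ N := by
      rw [hE2, hE, hpw]
      symm
      refine sum_subset ?_ ?_
      · intro N hN
        rw [mem_filter] at hN
        rw [mem_filter, mem_filter]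
        exact ⟨⟨hN.1, hN.2.2.1⟩, hN.2.2.2⟩
      · intro N hN hN'
        rw [mem_filter, mem_filter] at hN
        by_contra hne
        apply hN'
        rw [mem_filter]
        exact ⟨hN.1.1, (h1 N hne).2, hN.1.2, hN.2⟩
    rw [h7]
    refine sum_le_sum fun N _ => ?_
    by_cases hne : μ N = 0
    · rw [hne]
      refine mul_nonneg (by positivity) ?_
      split_ifs
      · exact (Real.exp_pos _).le
      · exact le_rfl
    · rw [if_pos (h1 N hne).1]
      calc μ N ≤ C2 * gw x N / nmv := h2 N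
        _ = C2 / nmv * gw x N := by ring
  have h8 := hE2e.trans hfin
  rw [div_mul_eq_mul_div, le_div_iff₀ hnm] at h8
  rw [div_mul_eq_mul_div, div_le_iff₀ (by positivity)]
  linarith

open Classical in
theorem one_boxL (Q : ℕ → Prop) (hU : BlkQ Q) (e : ℝ) (he : 0 < e) (he1 : e ≤ 1 / 100) (m : ℕ) (hm : 1 ≤ m) :
    ∃ (s : ℕ) (a : ℝ), 1 ≤ s ∧ 0 < a ∧ a ≤ 1 / 20 ∧ ∀ A : ℝ, 0 < A → ∃ c : ℝ, 0 < c ∧
      ∀ᶠ x : ℝ in atTop, ∀ L : ℕ, 1 ≤ L → (L : ℝ) ≤ Real.log x ^ A →
        ∀ v ∈ IJ (Fin m × Fin s) L, Admv v →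
        ∀ lam : Fin m → ℝ, (∀ j, 0 ≤ lam j) → ∑ j, lam j = 1 →
          c * x / Real.log x ^ (m * s) ≤
            ∑ N ∈ (Tx x).filter (fun N => (∀ i, Rgh (x ^ a) (N + v i)) ∧
              EvL Q e lam v N), gw x N := by
  have hm0 : (0 : ℝ) < m := by exact_mod_cast hm
  obtain ⟨s, a, C2, hs, ha, ha1, hC2, hB⟩ := hU (e / (2 * m)) (by positivity) m hm
  refine ⟨s, a, hs, ha, ha1, ?_⟩
  intro A hA
  have hcard : Fintype.card (Fin m × Fin s) = m * s := by
    rw [Fintype.card_prod, Fintype.card_fin, Fintype.card_fin]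
  have : Nonempty (Fin m × Fin s) := ⟨(⟨0, by omega⟩, ⟨0, by omega⟩)⟩
  obtain ⟨A', hA'⟩ : ∃ A' : ℝ, A' = (Fintype.card (Fin m × Fin s) : ℝ) ^ 2 * A + 1 := ⟨_, rfl⟩
  have hA'0 : 0 < A' := by rw [hA']; positivity
  obtain ⟨w0, hw0⟩ := hB A' hA'0
  obtain ⟨w, hw⟩ : ∃ w : ℕ, w = max w0 (m * s) := ⟨_, rfl⟩
  have hw0w : w0 ≤ w := by rw [hw]; exact le_max_left _ _
  have hKw : m * s ≤ w := by rw [hw]; exact le_max_right _ _
  obtain ⟨c, hc, hnms⟩ := nm_sum (Fin m × Fin s) a ha (by linarith)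
  refine ⟨e / (2 * C2) * c, by positivity, ?_⟩
  filter_upwards [hw0 w hw0w, okh (Fin m × Fin s) A hA w, nmu_pos (m * s) w hKw a,
    hnms A' w (by rw [hcard]; exact hKw)] with x hx1 hx2 hx3 hx4 L hL hLx v hv hadm lam hl0 hl1
  obtain ⟨hWle, hOk⟩ := hx2 L hL hLx v hv
  rw [← hA'] at hWle hOk
  obtain ⟨W, hW⟩ : ∃ W, W = WHn w (dd v) := ⟨_, rfl⟩
  have hWpos : 0 < W := by rw [hW]; exact wh_pos _ _
  have hWsq : Squarefree W := by rw [hW]; exact wh_sq _ _
  have hWpr : primorial w ∣ W := by rw [hW]; exact wh_prim _ _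
  rw [← hW] at hWle hOk
  have hnm : 0 < nm x a W (m * s) := hx3 W hWpos hWpr
  have hsum := hx4 W hWsq hWpr hWle v hadm
  rw [hcard] at hsum
  have hvinj : Function.Injective v := (mem_IJ.1 hv).2
  have hbU : (univ : Finset (Fin m)).biUnion (fun j => univ.image (fun l : Fin s => v (j, l))) =
      univ.image v := by
    ext y
    simp only [mem_biUnion, mem_image, mem_univ, true_and, Prod.exists]
  have hone : ∀ b ∈ GC W v, e / (2 * C2) * nm x a W (m * s) ≤
      ∑ N ∈ (Tx x).filter (fun N => (∀ i, Rgh (x ^ a) (N + v i)) ∧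
              EvL Q e lam v N), if N % W = b then gw x N else 0 := by
    intro b hb
    have hbW : b < W := (mem_GC.1 hb).1
    obtain ⟨μ, h0, h1, h2, h3, h4, h7⟩ := hx1 (fun j => univ.image (fun l : Fin s => v (j, l))) W b
      (by
        intro i j hij
        rw [disjoint_left]
        intro y hy hy'
        rw [mem_image] at hy hy'
        obtain ⟨l, _, hl⟩ := hy
        obtain ⟨l', _, hl'⟩ := hy'
        have := hvinj (hl.trans hl'.symm)
        exact hij (Prod.ext_iff.1 this).1)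
      (by
        intro j
        rw [card_image_of_injective, card_univ, Fintype.card_fin]
        intro l l' hll
        exact (Prod.ext_iff.1 (hvinj hll)).2)
      (by
        rw [hbU]
        exact hOk b hb)
    have hres := ob_oneL Q (a := a) hm he he1 le_rfl hC2 hnm lam hl0 hl1 v (b := b) μ h0 (by
        intro N hN
        obtain ⟨_, h5, h6⟩ := h1 N hN
        refine ⟨h5, fun i p hp hpN => h6 (v i) ?_ p hp hpN⟩
        rw [hbU]
        exact mem_image_of_mem v (mem_univ i)) h2 h3 (by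
        intro j
        refine (h4 j).trans (le_of_eq ?_)
        congr 1
        refine filter_congr fun N _ => ?_
        simp only [mem_image, mem_univ, true_and, exists_exists_eq_and]) (by
        intro j
        refine (h7 j).trans (le_of_eq ?_)
        congr 1
        refine filter_congr fun N _ => ?_
        simp only [mem_image, mem_univ, true_and, exists_exists_eq_and])
    rw [Nat.mod_eq_of_lt hbW] at hres
    exact hres
  calc e / (2 * C2) * c * x / Real.log x ^ (m * s) = e / (2 * C2) * (c * x / Real.log x ^ (m * s)) := by ring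
    _ ≤ e / (2 * C2) * ∑ _b ∈ GC W v, nm x a W (m * s) := by
        refine mul_le_mul_of_nonneg_left hsum (by positivity)
    _ = ∑ _b ∈ GC W v, e / (2 * C2) * nm x a W (m * s) := by rw [mul_sum]
    _ ≤ ∑ b ∈ GC W v, ∑ N ∈ (Tx x).filter (fun N => (∀ i, Rgh (x ^ a) (N + v i)) ∧
              EvL Q e lam v N), (if N % W = b then gw x N else 0) :=
        sum_le_sum hone
    _ ≤ _ := by
        rw [sum_comm]
        refine sum_le_sum fun N _ => ?_
        rw [sum_ite_eq]
        split_ifs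
        · exact le_rfl
        · exact (Real.exp_pos _).le

end Pool.Agent.H92.UM
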